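import Mathlib.SetTheory.Cardinal.Regular
import Mathlib.Order.Filter.CardinalInter
import Mathlib.Order.Zorn
import Mathlib.Tactic.Order
import Mathlib.Tactic.Choose

/-! General tools: recursion, boundedness, cofinal families, predense families. -/

namespace Pool.Agent.Lib.MP_414261_lc

open Cardinal Set Filter Order

universe u v w

theorem rec_exists {α : Type v} [LT α] [WellFoundedLT α] {β : Type w}
    (P : (a : α) → ((b : α) → b < a → β) → β → Prop) (h : ∀ a prev, ∃ x, P a prev x) :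
    ∃ f : α → β, ∀ a, P a (fun b _ => f b) (f a) := by
  choose F hF using h
  refine ⟨WellFounded.fix (wellFounded_lt (α := α)) F, fun a => ?_⟩
  rw [WellFounded.fix_eq]
  exact hF a _

theorem exists_cofinal (o : Ordinal.{u}) : ∃ (ι : Type u) (s : ι → Ordinal.{u}),
    #ι = o.cof ∧ (∀ i, s i < o) ∧ ∀ y < o, ∃ i, y ≤ s i := by
  obtain ⟨S, hS, hS'⟩ := Order.exists_cof_eq o.ToType
  refine ⟨S, fun i => (Ordinal.ToType.mk.symm i.1 : Set.Iio o), by rwa [Ordinal.cof_toType] at hS',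
    fun i => (Ordinal.ToType.mk.symm i.1).2, fun y hy => ?_⟩
  obtain ⟨b, hb, hb'⟩ := hS (Ordinal.ToType.mk ⟨y, hy⟩)
  refine ⟨⟨b, hb⟩, ?_⟩
  have := Ordinal.ToType.mk.symm.monotone hb'
  rw [OrderIso.symm_apply_apply] at this
  exact this

theorem succ_lt_of_cof {o a : Ordinal.{u}} (h : ℵ₀ ≤ o.cof) (ha : a < o) : a + 1 < o := by
  have : IsSuccLimit o := Ordinal.one_lt_cof_iff.1 (lt_of_lt_of_le one_lt_aleph0 h)
  exact this.succ_lt ha

theorem pos_of_cof {o : Ordinal.{u}} {c : Cardinal.{u}} (h : c < o.cof) : 0 < o :=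
  Ordinal.cof_pos.1 (lt_of_le_of_lt zero_le h)

/-- A small family in a regular initial segment is strictly bounded. -/
theorem bdd_toType {χ : Cardinal.{u}} (hχ : χ.IsRegular) {ι : Type u} (hι : #ι < χ)
    (f : ι → χ.ord.ToType) : ∃ b, ∀ i, f i < b := by
  have h1 : (⨆ i, ((Ordinal.ToType.mk.symm (f i) : Set.Iio χ.ord) : Ordinal) + 1) < χ.ord :=
    Ordinal.iSup_add_one_lt_of_lt_cof (by rwa [hχ.cof_ord]) (fun i => (Ordinal.ToType.mk.symm (f i)).2)
  refine ⟨Ordinal.ToType.mk ⟨_, h1⟩, fun i => ?_⟩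
  have h2 : Ordinal.ToType.mk.symm (f i) < ⟨_, h1⟩ :=
    Ordinal.lt_iSup_add_one (fun i => ((Ordinal.ToType.mk.symm (f i) : Set.Iio χ.ord) : Ordinal)) i
  have := Ordinal.ToType.mk.strictMono h2
  simpa using this

theorem nonempty_toType {χ : Cardinal.{u}} (hχ : χ.IsRegular) : Nonempty χ.ord.ToType := by
  obtain ⟨b, -⟩ := bdd_toType hχ (ι := PEmpty) (by simpa using hχ.pos) PEmpty.elim
  exact ⟨b⟩

/-- A pointwise antitone family of ordinal valued functions on a small set stabilises. -/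
theorem anti_stab {χ : Cardinal.{u}} (hχ : χ.IsRegular) {X : Type u} (hX : #X < χ)
    (p : χ.ord.ToType → X → Ordinal.{v}) (hp : ∀ a b x, a ≤ b → p b x ≤ p a x) :
    ∃ a, ∀ b, a ≤ b → p b = p a := by
  have := nonempty_toType hχ
  have h : ∀ x, ∃ a, ∀ b, p a x ≤ p b x := fun x =>
    ⟨Function.argmin (fun a => p a x), fun b => Function.argmin_le (fun a => p a x) b⟩
  choose a ha using h
  obtain ⟨b, hb⟩ := bdd_toType hχ hX a
  refine ⟨b, fun c hc => funext fun x => le_antisymm (hp _ _ _ hc) ?_⟩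
  exact (hp _ _ _ (hb x).le).trans (ha x c)

/-- Almost everywhere strict decrease is well founded. -/
theorem exists_min_ae {X : Type u} (F : Filter X) [F.NeBot] [CountableInterFilter F]
    (P : (X → Ordinal.{v}) → Prop) (h0 : ∃ h, P h) :
    ∃ h, P h ∧ ∀ h', P h' → ¬ ∀ᶠ x in F, h' x < h x := by
  by_contra hc
  push Not at hc
  choose G hG using hc
  obtain ⟨h, hh⟩ := h0
  let s : ℕ → {h // P h} := fun n => Nat.rec ⟨h, hh⟩ (fun _ t => ⟨G t.1 t.2, (hG t.1 t.2).1⟩) n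
  have h1 : ∀ n, ∀ᶠ x in F, (s (n + 1)).1 x < (s n).1 x := fun n => (hG (s n).1 (s n).2).2
  obtain ⟨x, hx⟩ := (eventually_countable_forall.2 h1).exists
  obtain ⟨n, hn⟩ := WellFounded.not_rel_apply_succ (r := (· < ·)) (fun n => (s n).1 x)
  exact hn (hx n)

/-- Every family of sets has a subfamily of size at most `δ` that is predense in it. -/
def PD {X : Type u} (F : Filter X) (δ : Cardinal.{u}) : Prop :=
  ∀ G : Set (Set X), ∃ A ⊆ G, #A ≤ δ ∧
    ∀ U ∈ G, (∃ᶠ x in F, x ∈ U) → ∃ a ∈ A, ∃ᶠ x in F, x ∈ U ∧ x ∈ a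

theorem PD.mono {X : Type u} {F : Filter X} {δ δ' : Cardinal.{u}} (h : PD F δ) (hd : δ ≤ δ') :
    PD F δ' := fun G => by
  obtain ⟨A, h1, h2, h3⟩ := h G
  exact ⟨A, h1, h2.trans hd, h3⟩

theorem pd_of_antichain {X : Type u} (F : Filter X) (δ : Cardinal.{u})
    (h : ∀ A : Set (Set X), (∀ a ∈ A, ∃ᶠ x in F, x ∈ a) →
      (A.Pairwise fun a b => ∀ᶠ x in F, ¬ (x ∈ a ∧ x ∈ b)) → #A ≤ δ) : PD F δ := by
  intro G
  let S : Set (Set (Set X)) := {A | A ⊆ G ∧ (∀ a ∈ A, ∃ᶠ x in F, x ∈ a) ∧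
      (A.Pairwise fun a b => ∀ᶠ x in F, ¬ (x ∈ a ∧ x ∈ b))}
  obtain ⟨A, hA⟩ := zorn_subset S (fun c hc hch => by
    refine ⟨⋃₀ c, ⟨?_, ?_, ?_⟩, fun s hs => subset_sUnion_of_mem hs⟩
    · rintro a ⟨s, hs, ha⟩
      exact (hc hs).1 ha
    · rintro a ⟨s, hs, ha⟩
      exact (hc hs).2.1 a ha
    · rintro a ⟨s, hs, ha⟩ b ⟨t, ht, hb⟩ hab
      rcases hch.total hs ht with h1 | h1
      · exact (hc ht).2.2 (h1 ha) hb hab
      · exact (hc hs).2.2 ha (h1 hb) hab)
  refine ⟨A, hA.prop.1, h A hA.prop.2.1 hA.prop.2.2, fun U hU hUp => ?_⟩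
  by_contra hc
  push Not at hc
  have h1 : insert U A ∈ S := by
    refine ⟨insert_subset hU hA.prop.1, ?_, ?_⟩
    · rintro a (rfl | ha)
      · exact hUp
      · exact hA.prop.2.1 a ha
    · rintro a (rfl | ha) b (rfl | hb) hab
      · exact absurd rfl hab
      · exact (hc b hb).mono fun x hx hx' => hx hx'.1 hx'.2
      · exact (hc a ha).mono fun x hx hx' => hx hx'.2 hx'.1
      · exact hA.prop.2.2 ha hb hab
  have h2 : U ∈ A := hA.le_of_ge h1 (subset_insert _ _) (mem_insert _ _)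
  exact hUp ((hc U h2).mono fun x hx hx' => hx hx' hx')

/-- Indexed form of predensity. -/
theorem PD.idx {X : Type u} {F : Filter X} {δ : Cardinal.{u}} (h : PD F δ) {ι : Sort v}
    (G : ι → Set X) : ∃ (J : Type u) (j : J → ι), #J ≤ δ ∧
      ∀ i, (∃ᶠ x in F, x ∈ G i) → ∃ a, ∃ᶠ x in F, x ∈ G i ∧ x ∈ G (j a) := by
  obtain ⟨A, h1, h2, h3⟩ := h (range G)
  have h4 : ∀ a : A, ∃ i, G i = a.1 := fun a => h1 a.2
  choose j hj using h4
  refine ⟨A, j, h2, fun i hi => ?_⟩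
  obtain ⟨a, ha, ha'⟩ := h3 (G i) ⟨i, rfl⟩ hi
  exact ⟨⟨a, ha⟩, by rw [hj]; exact ha'⟩

theorem PD.map {X Y : Type u} {F : Filter X} {δ : Cardinal.{u}} (h : PD F δ) (f : X → Y) :
    PD (Filter.map f F) δ := fun G => by
  obtain ⟨J, j, h1, h2⟩ := h.idx (fun a : G => f ⁻¹' a.1)
  refine ⟨range fun a => (j a).1, ?_, mk_range_le.trans h1, fun U hU hUp => ?_⟩
  · rintro _ ⟨a, rfl⟩
    exact (j a).2
  · obtain ⟨a, ha⟩ := h2 ⟨U, hU⟩ (by simpa [frequently_map] using hUp)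
    exact ⟨_, ⟨a, rfl⟩, by simpa [frequently_map] using ha⟩

theorem freq_exists_of_countable {X : Type u} {F : Filter X} [CountableInterFilter F]
    {ι : Sort v} [Countable ι] {p : X → ι → Prop} (h : ∃ᶠ x in F, ∃ i, p x i) :
    ∃ i, ∃ᶠ x in F, p x i := by
  by_contra hc
  push Not at hc
  exact h ((eventually_countable_forall.2 hc).mono fun x hx ⟨i, hi⟩ => hx i hi)

theorem freq_exists_of_small {X : Type u} {F : Filter X} {κ : Cardinal.{u}}
    [CardinalInterFilter F κ] {ι : Type u} (hι : #ι < κ) {p : X → ι → Prop}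
    (h : ∃ᶠ x in F, ∃ i, p x i) : ∃ i, ∃ᶠ x in F, p x i := by
  by_contra hc
  push Not at hc
  exact h (((eventually_cardinal_forall hι).2 hc).mono fun x hx ⟨i, hi⟩ => hx i hi)

/-- A type of size at most `#Θ` is the image of `Θ`, up to one default value. -/
theorem exists_cover_fun {J Θ : Type u} (h : #J ≤ #Θ) {β : Sort v} (j : J → β) (d : β)
    (P : β → Prop) (hj : ∀ a, P (j a)) (hd : P d) :
    ∃ k : Θ → β, (∀ t, P (k t)) ∧ ∀ a, ∃ t, k t = j a := by
  obtain ⟨e⟩ := Cardinal.le_def _ _ |>.1 h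
  classical
  refine ⟨Function.extend e j (fun _ => d), fun t => ?_, fun a => ⟨e a, e.injective.extend_apply _ _ _⟩⟩
  by_cases ht : ∃ a, e a = t
  · obtain ⟨a, rfl⟩ := ht
    rw [e.injective.extend_apply]
    exact hj a
  · rw [Function.extend_apply' _ _ _ ht]
    exact hd

end Pool.Agent.Lib.MP_414261_lc
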