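import Pool.Agent.Lib.MP_414261_lc.Scale

/-! Least upper bounds modulo the saturated filter, its normal projection, and products of
small cofinality. -/

namespace Pool.Agent.Lib.MP_414261_lc

open Cardinal Set Filter Order

universe u v w

variable {κ : Cardinal.{u}} {W : Filter κ.ord.ToType}

theorem QM.improve (H : QM κ W) {ι : Sort v} (φ : ι → κ.ord.ToType → Ordinal.{u})
    (u : κ.ord.ToType → Ordinal.{u}) (hu : ∀ j, ∀ᶠ i in W, φ j i < u i) :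
    ∃ u' : κ.ord.ToType → Ordinal.{u}, (∀ j, ∀ᶠ i in W, φ j i < u' i) ∧ (∀ i, u' i ≤ u i) ∧
      ∀ (f : κ.ord.ToType → Ordinal.{u}) (A : Set κ.ord.ToType),
        (∀ i ∈ A, f i < u i ∧ u' i = u i) → (∀ j, ∀ᶠ i in W, i ∈ A → φ j i < f i) →
        ∀ᶠ i in W, i ∉ A := by
  classical
  have := H.sigma
  obtain ⟨J, j, hJ, hj⟩ := H.ccc.idx
    (fun p : {p : (κ.ord.ToType → Ordinal.{u}) × Set κ.ord.ToType //
      (∀ i ∈ p.2, p.1 i < u i) ∧ ∀ j, ∀ᶠ i in W, i ∈ p.2 → φ j i < p.1 i} => p.1.2)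
  have : Countable J := mk_le_aleph0_iff.1 hJ
  refine ⟨fun i => if h : ∃ a, i ∈ (j a).1.2 then (j h.choose).1.1 i else u i, fun t => ?_,
    fun i => ?_, fun f A h1 h2 => ?_⟩
  · refine ((eventually_countable_forall.2 fun a => (j a).2.2 t).and (hu t)).mono fun i hi => ?_
    dsimp only
    split_ifs with h
    · exact hi.1 _ h.choose_spec
    · exact hi.2
  · dsimp only
    split_ifs with h
    · exact ((j _).2.1 i h.choose_spec).le
    · exact le_rfl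
  · by_contra hc
    obtain ⟨a, ha⟩ := hj ⟨(f, A), fun i hi => (h1 i hi).1, h2⟩ hc
    obtain ⟨i, h3, h4⟩ := ha.exists
    have h5 := (h1 i h3).2
    have h6 : ∃ a, i ∈ (j a).1.2 := ⟨a, h4⟩
    simp only [dif_pos h6] at h5
    exact ((j _).2.1 i h6.choose_spec).ne h5

theorem QM.lub (H : QM κ W) {ι : Sort v} (φ : ι → κ.ord.ToType → Ordinal.{u})
    (f₀ : κ.ord.ToType → Ordinal.{u}) (h₀ : ∀ j, ∀ᶠ i in W, φ j i < f₀ i) :
    ∃ f : κ.ord.ToType → Ordinal.{u}, (∀ i, f i ≤ f₀ i) ∧ (∀ j, ∀ᶠ i in W, φ j i < f i) ∧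
      ∀ (f' : κ.ord.ToType → Ordinal.{u}) (A : Set κ.ord.ToType),
        (∀ i ∈ A, f' i < f i) → (∀ j, ∀ᶠ i in W, i ∈ A → φ j i < f' i) → ∀ᶠ i in W, i ∉ A := by
  have := H.sigma
  choose P p1 p2 p3 using H.improve φ
  let s : ℕ → {u : κ.ord.ToType → Ordinal.{u} // ∀ j, ∀ᶠ i in W, φ j i < u i} := fun n =>
    Nat.rec ⟨f₀, h₀⟩ (fun _ u => ⟨P u.1 u.2, p1 u.1 u.2⟩) n
  have h1 : ∀ i, ∃ n, (s (n + 1)).1 i = (s n).1 i := fun i => by
    obtain ⟨n, hn⟩ := WellFounded.not_rel_apply_succ (r := (· < ·)) (fun n => (s n).1 i)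
    exact ⟨n, le_antisymm (p2 (s n).1 (s n).2 i) (not_lt.1 hn)⟩
  choose n hn using h1
  have h2 : ∀ k i, (s k).1 i ≤ f₀ i := fun k i => by
    induction k with
    | zero => exact le_rfl
    | succ k ih => exact (p2 (s k).1 (s k).2 i).trans ih
  refine ⟨fun i => (s (n i)).1 i, fun i => h2 _ i, fun j => ?_, fun f' A h3 h4 => ?_⟩
  · exact (eventually_countable_forall.2 fun k => (s k).2 j).mono fun i hi => hi _
  · have h5 : ∀ k, ∀ᶠ i in W, i ∉ {i ∈ A | n i = k} := fun k =>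
      p3 (s k).1 (s k).2 f' _ (by
        rintro i ⟨hi, rfl⟩
        exact ⟨h3 i hi, hn i⟩) (fun j => (h4 j).mono fun i hi hi' => hi hi'.1)
    exact (eventually_countable_forall.2 h5).mono fun i hi hi' => hi _ ⟨hi', rfl⟩

theorem QM.exists_least (H : QM κ W) : ∃ h : κ.ord.ToType → κ.ord.ToType,
    (∀ k, ∀ᶠ i in W, k < h i) ∧ ∀ (r : κ.ord.ToType → κ.ord.ToType) (A : Set κ.ord.ToType),
      (∃ᶠ i in W, i ∈ A) → (∀ i ∈ A, r i < h i) → ∃ k, ∃ᶠ i in W, i ∈ A ∧ r i = k := by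
  let v : κ.ord.ToType → Ordinal.{u} := fun k => (Ordinal.ToType.mk.symm k).1
  have hv : StrictMono v := fun a b h => Ordinal.ToType.mk.symm.strictMono h
  obtain ⟨f, h1, h2, h3⟩ := H.lub (fun k _ => v k) v (fun k => (H.tail k).mono fun i hi => hv hi)
  let h : κ.ord.ToType → κ.ord.ToType := fun i =>
    Ordinal.ToType.mk ⟨f i, (h1 i).trans_lt (Ordinal.ToType.mk.symm i).2⟩
  have hh : ∀ i, v (h i) = f i := fun i => by simp [v, h]
  refine ⟨h, fun k => (h2 k).mono fun i hi => hv.lt_iff_lt.1 (by rwa [hh]), fun r A hA hr => ?_⟩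
  have h4 := mt (h3 (fun i => v (r i)) A (fun i hi => by rw [← hh]; exact hv (hr i hi))) hA
  push Not at h4
  obtain ⟨k, hk⟩ := h4
  have := noMaxOrder H.unc.le
  obtain ⟨k', hk'⟩ := exists_gt k
  obtain ⟨t, ht⟩ := H.ex (H.iio k') (p := fun i t => i ∈ A ∧ r i = t.1)
    (hk.mono fun i hi => ⟨⟨r i, (hv.le_iff_le.1 hi.2).trans_lt hk'⟩, hi.1, rfl⟩)
  exact ⟨t.1, ht⟩

theorem QM.map (H : QM κ W) {h : κ.ord.ToType → κ.ord.ToType} (hh : ∀ k, ∀ᶠ i in W, k < h i) :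
    QM κ (Filter.map h W) :=
  have := H.comp
  have := H.ne
  ⟨H.reg, H.unc, inferInstance, inferInstance, H.ccc.map h, hh⟩

theorem QM.no_directed (H : QM κ W)
    (hN : ∀ (r : κ.ord.ToType → κ.ord.ToType) (A : Set κ.ord.ToType),
      (∃ᶠ i in W, i ∈ A) → (∀ i ∈ A, r i < i) → ∃ k, ∃ᶠ i in W, i ∈ A ∧ r i = k)
    {X : Type u} (hX : #X < κ) {g : X → Ordinal.{u}} (hg : ∀ x, ℵ₀ < (g x).cof)
    (hg' : ∀ x, (g x).cof < κ) {D : Filter X} [CountableInterFilter D] [D.NeBot]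
    (hD : ∀ ν < κ, Bdd D g ν) : False := by
  have := H.ne
  have := H.sigma
  choose ι s s1 s2 s3 using fun x => exists_cofinal (g x)
  have hr : ∀ b : X → Ordinal.{u}, (∀ x, b x < g x) → ∃ v : ∀ x, ι x, ∀ x, b x ≤ s x (v x) :=
    fun b hb => by
      choose v hv using fun x => s3 x _ (hb x)
      exact ⟨v, hv⟩
  let Good : (ξ : κ.ord.ToType) → (∀ η, η < ξ → ∀ x, ι x) → (∀ x, ι x) → Prop := fun ξ prev v =>
    ∀ η (h : η < ξ), ∃ ζ, ∃ h' : ζ < ξ, η < ζ ∧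
      ∀ x, s x (prev η h x) < s x (prev ζ h' x) → s x (prev η h x) < s x (v x)
  obtain ⟨f, hf⟩ := rec_exists (α := κ.ord.ToType) (β := ∀ x, ι x)
    (fun ξ prev v => Good ξ prev v ∨ ((¬ ∃ v', Good ξ prev v') ∧
      ∀ η (h : η < ξ), ∀ᶠ x in D, s x (prev η h x) < s x (v x))) (fun ξ prev => by
      by_cases h : ∃ v', Good ξ prev v'
      · obtain ⟨v, hv⟩ := h
        exact ⟨v, Or.inl hv⟩
      · obtain ⟨b, b1, b2⟩ := hD _ (H.iio ξ) (Iio ξ) le_rfl (fun η x => s x (prev η.1 η.2 x))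
          (fun η x => s2 x _)
        obtain ⟨v, hv⟩ := hr b b1
        exact ⟨v, Or.inr ⟨h, fun η hη => (b2 ⟨η, hη⟩).mono fun x hx => hx.trans_le (hv x)⟩⟩)
  have h1 : ∀ ξ η, η < ξ → ∀ᶠ x in D, s x (f η x) < s x (f ξ x) := by
    intro ξ
    induction ξ using WellFoundedLT.induction with
    | ind ξ ih =>
    intro η hη
    rcases hf ξ with h | h
    · obtain ⟨ζ, a1, a2, a3⟩ := h η hη
      exact (ih ζ a1 η a2).mono a3
    · exact h.2 η hη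
  have h2 : ∀ᶠ ξ in W, ∀ x, ∃ᶠ η in W, f η x = f ξ x :=
    H.all hX fun x => H.ae_fib (by rw [s1]; exact hg' x) (fun ξ => f ξ x)
  obtain ⟨v, hv⟩ := hr (fun x => ⨆ i : {i | ∃ᶠ η in W, f η x = i}, s x i.1) (fun x =>
    Ordinal.iSup_lt_of_lt_cof
      ((le_aleph0_iff_set_countable.2 (H.countable_fib fun η => f η x)).trans_lt (hg x))
      fun i => s2 x _)
  have h3 : ∀ η, ∃ ζ, η < ζ ∧ ∀ x, s x (f ζ x) ≤ s x (v x) := fun η => by
    obtain ⟨ζ, a1, a2⟩ := ((H.tail η).and h2).exists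
    exact ⟨ζ, a1, fun x => (Ordinal.le_iSup
      (fun i : {i | ∃ᶠ η in W, f η x = i} => s x i.1) ⟨_, a2 x⟩).trans (hv x)⟩
  choose z z1 z2 using h3
  have h4 : ∀ᶠ ξ in W, ∀ η < ξ, z η < ξ := by
    by_contra hc
    have a1 : ∀ ξ, ∃ η, (¬ ∀ η < ξ, z η < ξ) → η < ξ ∧ ξ ≤ z η := fun ξ => by
      by_cases h : ∀ η < ξ, z η < ξ
      · exact ⟨ξ, fun h' => absurd h h'⟩
      · push Not at h
        obtain ⟨η, hη⟩ := h
        exact ⟨η, fun _ => hη⟩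
    choose r hr using a1
    obtain ⟨k, hk⟩ := hN r {ξ | ¬ ∀ η < ξ, z η < ξ} (not_eventually.1 hc) fun i hi => (hr i hi).1
    obtain ⟨ξ, ⟨a2, rfl⟩, a3⟩ := (hk.and_eventually (H.tail (z k))).exists
    exact a3.not_ge (hr ξ a2).2
  have h5 : ∀ᶠ ξ in W, Good ξ (fun η _ => f η) (f ξ) := h4.mono fun ξ hξ =>
    (hf ξ).resolve_right fun h => h.1 ⟨v, fun η hη => ⟨z η, hξ η hη, z1 η, fun x hx =>
      hx.trans_le (z2 η x)⟩⟩
  obtain ⟨η, hη⟩ := h2.exists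
  have h6 : ∀ ξ, ∃ ζ, η < ξ → Good ξ (fun η _ => f η) (f ξ) → ζ < ξ ∧ η < ζ ∧
      ∀ x, s x (f η x) < s x (f ζ x) → s x (f η x) < s x (f ξ x) := fun ξ => by
    by_cases h : η < ξ ∧ Good ξ (fun η _ => f η) (f ξ)
    · obtain ⟨ζ, a1, a2⟩ := h.2 η h.1
      exact ⟨ζ, fun _ _ => ⟨a1, a2⟩⟩
    · exact ⟨ξ, fun a b => absurd ⟨a, b⟩ h⟩
  choose r hr' using h6
  have h7 := ((H.tail η).and h5).mono fun ξ hξ => hr' ξ hξ.1 hξ.2
  have h8 : ∀ᶠ ξ in W, r ξ < ξ → ∃ᶠ ξ' in W, r ξ' = r ξ := by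
    by_contra hc
    obtain ⟨k, hk⟩ := hN r {ξ | ¬ (r ξ < ξ → ∃ᶠ ξ' in W, r ξ' = r ξ)} (not_eventually.1 hc)
      fun i hi => (Classical.not_imp.1 hi).1
    obtain ⟨ξ, a1, rfl⟩ := hk.exists
    exact a1 fun _ => hk.mono fun i hi => hi.2
  have h9 : ∀ᶠ x in D, ∀ ζ ∈ {ζ | ∃ᶠ ξ' in W, r ξ' = ζ}, η < ζ → s x (f η x) < s x (f ζ x) := by
    refine (eventually_countable_ball (H.countable_fib r)).2 fun ζ _ => ?_
    by_cases h : η < ζ
    · exact (h1 ζ η h).mono fun x hx _ => hx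
    · exact Eventually.of_forall fun x h' => absurd h' h
  obtain ⟨x, hx⟩ := h9.exists
  obtain ⟨ξ, a1, a2, a3⟩ := ((hη x).and_eventually (h7.and h8)).exists
  have := a2.2.2 x (hx _ (a3 a2.1) a2.2.1)
  rw [a1] at this
  exact this.false

theorem QM.KK_small_cof (H : QM κ W) {χ : Cardinal.{u}} (hχ : χ.IsRegular) {X : Type u}
    (hX : #X < χ) {g : X → Ordinal.{u}} (hg : ∀ x, χ < (g x).cof) (hg' : ∀ x, (g x).cof < κ) :
    KK κ g Set.univ := by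
  rcases isEmpty_or_nonempty X with h | ⟨⟨x⟩⟩
  · exact KK.mono Dom.empty le_rfl fun x => isEmptyElim x
  by_contra hc
  have : (KF κ g).NeBot := ⟨fun h => hc (by
    have : (∅ : Set X) ∈ KF κ g := by rw [h]; exact mem_bot
    simpa using mem_KF.1 this)⟩
  obtain ⟨h, h1, h2⟩ := H.exists_least
  refine (H.map h1).no_directed (fun r A hA hr => ?_) (hX.trans ((hg x).trans (hg' x)))
    (fun x => hχ.aleph0_le.trans_lt (hg x)) hg' (D := KF κ g)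
    (fun ν hν => bdd_KF hχ hX hg ν (hν.le.trans (le_max_left _ _)))
  obtain ⟨k, hk⟩ := h2 (fun i => r (h i)) (h ⁻¹' A) (frequently_map.1 hA) fun i hi => hr _ hi
  exact ⟨k, frequently_map.2 hk⟩

end Pool.Agent.Lib.MP_414261_lc
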