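import Pool.Agent.Lib.MP_414261_lc.RG
import Pool.Agent.Lib.MP_414261_lc.Norm

/-! From dominating families in products to covering families of small sets. -/

namespace Pool.Agent.Lib.MP_414261_lc

open Cardinal Set Filter Order

universe u v w

variable {κ : Cardinal.{u}} {W : Filter κ.ord.ToType}

theorem Dom.union {X : Type u} {g : X → Ordinal.{u}} {θ lam : Cardinal.{u}} (hθ : ℵ₀ ≤ θ)
    (hl : ℵ₀ ≤ lam) {A B : Set X} (hA : Dom θ lam g A) (hB : Dom θ lam g B) :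
    Dom θ lam g (A ∪ B) := by
  have h2 : #(ULift.{u} Bool) ≤ ℵ₀ := mk_le_aleph0
  refine (Dom.iUnion hθ hl (h2.trans hθ) (h2.trans hl)
    (A := fun t : ULift.{u} Bool => cond t.down A B) ?_).mono le_rfl le_rfl ?_
  · rintro ⟨_ | _⟩
    · exact hB
    · exact hA
  · rintro x (h | h)
    · exact mem_iUnion.2 ⟨⟨true⟩, h⟩
    · exact mem_iUnion.2 ⟨⟨false⟩, h⟩

theorem Dom.of_subtype {X : Type u} {g : X → Ordinal.{u}} {θ lam : Cardinal.{u}} {p : X → Prop}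
    (h0 : ∀ x, 0 < g x) (h : Dom θ lam (fun x : {x // p x} => g x.1) Set.univ) :
    Dom θ lam g {x | p x} :=
  (h.image Subtype.val Subtype.val_injective.injOn (fun _ _ => rfl) h0 (fun _ => h0 _)).mono
    le_rfl le_rfl fun x hx => ⟨⟨x, hx⟩, trivial, rfl⟩

theorem QM.ph (H : QM κ W) (ν : Ordinal.{u}) (hν : κ ≤ ν.card) : ∃ θ < κ, ℵ₀ ≤ θ ∧
    ∀ ρ < κ, ℵ₀ ≤ ρ → ∀ X : Type u, #X ≤ ρ → ∀ g : X → Ordinal.{u}, (∀ x, ρ < (g x).cof) →
      (∀ x, g x ≤ ν) → Dom θ ν.card g Set.univ := by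
  obtain ⟨θ, hθ, hrg⟩ := H.rg ν
  refine ⟨max θ ℵ₀, max_lt hθ H.unc, le_max_right _ _, fun ρ hρ hρ' X hX g hg hg' => ?_⟩
  have hl : ℵ₀ ≤ ν.card := H.unc.le.trans hν
  have h0 : ∀ x, 0 < g x := fun x => pos_of_cof (hg x)
  have hk : ∀ {Y : Type u} {g' : Y → Ordinal.{u}} {A : Set Y} {c : Cardinal.{u}},
      c ≤ ν.card → KK c g' A → Dom (max θ ℵ₀) ν.card g' A := fun hc h =>
    Dom.mono h (le_max_right _ _) (max_le hc hl) le_rfl
  have h1 := hk ((succ_le_of_lt hρ).trans hν)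
    (KK.const (g := g) (isRegular_succ hρ') (hX.trans_lt (lt_succ ρ)) h0)
  have h2 : Dom (max θ ℵ₀) ν.card g {x | succ ρ < (g x).cof ∧ (g x).cof < κ} :=
    Dom.of_subtype h0 (hk hν (H.KK_small_cof (isRegular_succ hρ')
      (((mk_subtype_le _).trans hX).trans_lt (lt_succ ρ)) (fun x => x.2.1) (fun x => x.2.2)))
  have h3 := hk hν (KK.const (g := g) H.reg (hX.trans_lt hρ) h0)
  have h4 : Dom (max θ ℵ₀) ν.card g {x | κ < (g x).cof} := by
    refine Dom.of_subtype h0 ?_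
    obtain ⟨T, A, a1, a2, a3⟩ := hrg {x // κ < (g x).cof}
      (((mk_subtype_le _).trans hX).trans_lt hρ) (fun x => g x.1) (fun x => x.2) (fun x => hg' _)
    exact (Dom.iUnion (le_max_right _ _) hl (a1.trans (le_max_left _ _))
      (a1.trans (hθ.le.trans hν)) fun t => hk le_rfl (a3 t)).mono le_rfl le_rfl
      fun x _ => mem_iUnion.2 (a2 x)
  have hm := le_max_right θ ℵ₀
  refine ((h1.union hm hl h2).union hm hl (h3.union hm hl h4)).mono le_rfl le_rfl fun x _ => ?_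
  rcases (succ_le_of_lt (hg x)).eq_or_lt with h | h
  · exact Or.inl (Or.inl h.symm)
  rcases lt_trichotomy (g x).cof κ with h' | h' | h'
  · exact Or.inl (Or.inr ⟨h, h'⟩)
  · exact Or.inr (Or.inl h')
  · exact Or.inr (Or.inr h')

theorem exists_child {θ : Cardinal.{u}} (hθ : ℵ₀ ≤ θ) {ν : Ordinal.{u}} {R Λ : Type u}
    [Infinite R] [Nonempty Λ]
    (hP : ∀ X : Type u, #X ≤ #R → ∀ g : X → Ordinal.{u}, (∀ x, #R < (g x).cof) →
      (∀ x, g x ≤ ν) → Dom θ #Λ g Set.univ) (N : {N : R → Ordinal.{u} // ∀ r, N r ≤ ν}) :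
    ∃ ch : Λ → {N : R → Ordinal.{u} // ∀ r, N r ≤ ν}, ∀ v : R → Ordinal.{u},
      ∃ (J : Type u) (j : J → Λ), #J ≤ θ ∧ ∀ r r', v r' < N.1 r →
        ∃ a r'', v r' ≤ (ch (j a)).1 r'' ∧ (ch (j a)).1 r'' < N.1 r := by
  classical
  obtain ⟨ι, φ, hι, hφ, hd⟩ := hP {r // #R < (N.1 r).cof} (mk_subtype_le _) (fun r => N.1 r.1)
    (fun r => r.2) (fun r => N.2 _)
  obtain ⟨k, k1, k2⟩ := exists_cover_fun hι φ (fun _ => 0) (fun ψ => ∀ r, ψ r < N.1 r.1) hφ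
    (fun r => pos_of_cof r.2)
  choose t ht using k2
  have h1 : ∀ r, ∃ s : R → Ordinal.{u}, (∀ r', s r' ≤ ν) ∧
      (¬ #R < (N.1 r).cof → ∀ y < N.1 r, ∃ r', y ≤ s r' ∧ s r' < N.1 r) := fun r => by
    by_cases h : 0 < N.1 r ∧ (N.1 r).cof ≤ #R
    · obtain ⟨s, s1, s2⟩ := cofinal_fun h.1 h.2
      refine ⟨s, fun r' => (s1 r').le.trans (N.2 r), fun _ y hy => ?_⟩
      obtain ⟨r', hr'⟩ := s2 y hy
      exact ⟨r', hr', s1 r'⟩
    · exact ⟨fun _ => 0, fun _ => zero_le, fun a y hy =>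
        absurd ⟨lt_of_le_of_lt zero_le hy, not_lt.1 a⟩ h⟩
  choose s s1 s2 using h1
  obtain ⟨π⟩ : Nonempty (R ≃ R × R) := Cardinal.eq.1 (by simp)
  refine ⟨fun l => ⟨fun r => if h : #R < (N.1 (π r).1).cof then k l ⟨_, h⟩ else s (π r).1 (π r).2,
    fun r => ?_⟩, fun v => ?_⟩
  · dsimp only
    split_ifs with h
    · exact (k1 l _).le.trans (N.2 _)
    · exact s1 _ _
  · obtain ⟨J, j, hJ, hj⟩ := hd (fun r => ⨆ r' : {r' // v r' < N.1 r.1}, v r'.1) (fun r =>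
      Ordinal.iSup_lt_of_lt_cof ((mk_subtype_le _).trans_lt r.2) fun r' => r'.2)
    refine ⟨Option J, fun a => a.elim (Classical.arbitrary _) (fun a => t (j a)),
      mk_option_le hθ hJ, fun r r' hr => ?_⟩
    by_cases h : #R < (N.1 r).cof
    · obtain ⟨a, ha⟩ := hj ⟨r, h⟩ trivial
      refine ⟨some a, π.symm (r, r), ?_⟩
      simp only [Equiv.apply_symm_apply, dif_pos h, Option.elim, ht]
      exact ⟨(Ordinal.le_iSup (fun r' : {r' // v r' < N.1 r} => v r'.1) ⟨r', hr⟩).trans ha,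
        hφ _ ⟨r, h⟩⟩
    · obtain ⟨r'', hr''⟩ := s2 r h _ hr
      refine ⟨none, π.symm (r, r''), ?_⟩
      simpa only [Equiv.apply_symm_apply, dif_neg h] using hr''

theorem cover_of_dom {θ : Cardinal.{u}} (hθ : ℵ₀ ≤ θ) {ν : Ordinal.{u}} {R Λ : Type u}
    [Infinite R] [Nonempty Λ]
    (hP : ∀ X : Type u, #X ≤ #R → ∀ g : X → Ordinal.{u}, (∀ x, #R < (g x).cof) →
      (∀ x, g x ≤ ν) → Dom θ #Λ g Set.univ) :
    ∃ c : List Λ → R → Ordinal.{u}, ∀ v : R → Ordinal.{u}, (∀ r, v r ≤ ν) →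
      ∃ (J : Type u) (j : J → List Λ), #J ≤ θ ∧ ∀ r, ∃ a r', c (j a) r' = v r := by
  choose ch hch using exists_child hθ hP
  let node : List Λ → {N : R → Ordinal.{u} // ∀ r, N r ≤ ν} := fun l =>
    List.rec ⟨fun _ => ν, fun _ => le_rfl⟩ (fun t _ N => ch N t) l
  refine ⟨fun l => (node l).1, fun v hv => ?_⟩
  choose J j hJ hj using fun N => hch N v
  let T : ℕ → Σ T : Type u, T → List Λ := fun n =>
    Nat.rec ⟨PUnit, fun _ => []⟩
      (fun _ S => ⟨Σ a : S.1, J (node (S.2 a)), fun b => j _ b.2 :: S.2 b.1⟩) n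
  have hT : ∀ n, #(T n).1 ≤ θ := fun n => by
    induction n with
    | zero => exact (mk_le_aleph0 (α := PUnit)).trans hθ
    | succ n ih => exact mk_sigma_le hθ ih fun a => hJ _
  refine ⟨Σ n : ULift.{u} ℕ, (T n.down).1, fun a => (T a.1.down).2 a.2,
    mk_sigma_le hθ (mk_le_aleph0.trans hθ) fun n => hT _, fun r => ?_⟩
  obtain ⟨_, ⟨n, a, r', rfl, h1⟩, h2⟩ := WellFounded.has_min (wellFounded_lt (α := Ordinal.{u}))
    {x | ∃ n a r', (node ((T n).2 a)).1 r' = x ∧ v r ≤ x}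
    ⟨ν, 0, PUnit.unit, Classical.arbitrary _, rfl, hv r⟩
  rcases h1.eq_or_lt with h | h
  · exact ⟨⟨⟨n⟩, a⟩, r', h.symm⟩
  · obtain ⟨b, r'', h3, h4⟩ := hj _ r' r h
    exact absurd h4 (h2 _ ⟨n + 1, ⟨a, b⟩, r'', rfl, h3⟩)

theorem QM.cov (H : QM κ W) (τ : Ordinal.{u}) (hτ : κ ≤ τ.card) : ∃ Θ : Type u, #Θ < κ ∧
    ∀ R : Type u, #R < κ → ∃ c : τ.ToType → R → τ.ToType, ∀ v : R → τ.ToType,
      ∃ J : Θ → τ.ToType, ∀ r, ∃ ε r', c (J ε) r' = v r := by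
  classical
  obtain ⟨θ, h1, h2, h3⟩ := H.ph τ hτ
  have hL : Infinite τ.ToType := infinite_iff.2 (by simpa using H.unc.le.trans hτ)
  refine ⟨θ.out, by simpa using h1, fun R hR => ?_⟩
  rcases finite_or_infinite R with h | h
  · refine ⟨fun l _ => l, fun v => ?_⟩
    obtain ⟨k, -, hk⟩ := exists_cover_fun (Θ := θ.out) (by simpa using mk_le_aleph0.trans h2) v
      (Classical.arbitrary _) (fun _ => True) (fun _ => trivial) trivial
    refine ⟨k, fun r => ?_⟩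
    obtain ⟨t, ht⟩ := hk r
    exact ⟨t, r, ht⟩
  obtain ⟨c, hc⟩ := cover_of_dom (R := R) (Λ := τ.ToType) (ν := τ) h2 (by
    simpa using h3 _ hR (infinite_iff.1 h))
  obtain ⟨k, -, hk⟩ := exists_cover_fun (Θ := τ.ToType) (mk_list_eq_mk τ.ToType).le
    (fun l r => if h : c l r < τ then Ordinal.ToType.mk ⟨_, h⟩ else Classical.arbitrary _)
    (fun _ => Classical.arbitrary _) (fun _ => True) (fun _ => trivial) trivial
  choose t ht using hk
  refine ⟨k, fun v => ?_⟩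
  obtain ⟨J, j, hJ, hj⟩ := hc (fun r => (Ordinal.ToType.mk.symm (v r)).1)
    (fun r => (Ordinal.ToType.mk.symm (v r)).2.le)
  obtain ⟨k', -, hk'⟩ := exists_cover_fun (Θ := θ.out) (by simpa using hJ) (fun a => t (j a))
    (Classical.arbitrary _) (fun _ => True) (fun _ => trivial) trivial
  refine ⟨k', fun r => ?_⟩
  obtain ⟨a, r', ha⟩ := hj r
  obtain ⟨ε, hε⟩ := hk' a
  refine ⟨ε, r', ?_⟩
  have h4 : c (j a) r' < τ := ha ▸ (Ordinal.ToType.mk.symm (v r)).2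
  rw [hε, ht]
  simp only [dif_pos h4]
  rw [← OrderIso.apply_symm_apply Ordinal.ToType.mk (v r)]
  exact congrArg _ (Subtype.ext ha)

end Pool.Agent.Lib.MP_414261_lc
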