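import Mathlib.SetTheory.Cardinal.Regular
import Mathlib.Order.Filter.CardinalInter
import Mathlib.Order.Filter.Ultrafilter.Defs

namespace Pool.Agent.Lib.MP_414261_lc

universe u

/-- `X` is `W`-positive, i.e. a condition of the forcing `W⁺`. -/
def Pos {K : Type u} (W : Filter K) (X : Set K) : Prop := Xᶜ ∉ W

/-- The condition `q` forces `j_W τ = σ`: there are functions `e β : K → τ` for `β < σ` that are
strictly increasing in `β` for `W`-almost all points of `q`, and below `q` it is dense to make any
given function `K → τ` equal to one of them.  So `β ↦ [e β]_G` is an order isomorphism from `σ`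
onto the ultrapower of `τ` by any generic `G` containing `q`. -/
def Rep {K : Type u} (W : Filter K) (q : Set K) (τ σ : Ordinal.{u}) : Prop :=
  ∃ e : σ.ToType → K → τ.ToType,
    (∀ β γ, β < γ → ∀ᶠ i in W, i ∈ q → e β i < e γ i) ∧
    ∀ (f : K → τ.ToType) (r : Set K), r ⊆ q → Pos W r → ∃ β, Pos W {i | i ∈ r ∧ f i = e β i}

end Pool.Agent.Lib.MP_414261_lc
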