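import Pool.Agent.Lib.MP_414261_lc.Basic
import Mathlib.SetTheory.Cardinal.Arithmetic

/-! The ideals of sets on which a product of ordinals has a small dominating family. -/

namespace Pool.Agent.Lib.MP_414261_lc

open Cardinal Set Filter Order

universe u v w

theorem mk_sigma_le {c : Cardinal.{u}} (hc : ℵ₀ ≤ c) {T : Type u} (hT : #T ≤ c) {ι : T → Type u}
    (h : ∀ t, #(ι t) ≤ c) : #(Σ t, ι t) ≤ c := by
  rw [mk_sigma]
  refine (sum_le_sum _ (fun _ => c) h).trans ?_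
  rw [sum_const']
  exact mul_le_of_le hc hT le_rfl

theorem mk_option_le {c : Cardinal.{u}} (hc : ℵ₀ ≤ c) {T : Type u} (hT : #T ≤ c) :
    #(Option T) ≤ c := by
  rw [mk_option]
  exact add_le_of_le hc hT (one_le_aleph0.trans hc)

/-- There are at most `lam` functions below `g` such that each function below `g` is dominated
on `A` by at most `θ` of them. -/
def Dom (θ lam : Cardinal.{u}) {X : Type u} (g : X → Ordinal.{u}) (A : Set X) : Prop :=
  ∃ (ι : Type u) (φ : ι → X → Ordinal.{u}), #ι ≤ lam ∧ (∀ i x, φ i x < g x) ∧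
    ∀ f : X → Ordinal.{u}, (∀ x, f x < g x) →
      ∃ (J : Type u) (j : J → ι), #J ≤ θ ∧ ∀ x ∈ A, ∃ a, f x ≤ φ (j a) x

variable {X : Type u} {g : X → Ordinal.{u}} {θ lam : Cardinal.{u}}

theorem Dom.mono {A B : Set X} {θ' lam' : Cardinal.{u}} (h : Dom θ lam g A) (h1 : θ ≤ θ')
    (h2 : lam ≤ lam') (h3 : B ⊆ A) : Dom θ' lam' g B := by
  obtain ⟨ι, φ, hι, hφ, hd⟩ := h
  refine ⟨ι, φ, hι.trans h2, hφ, fun f hf => ?_⟩
  obtain ⟨J, j, hJ, hj⟩ := hd f hf
  exact ⟨J, j, hJ.trans h1, fun x hx => hj x (h3 hx)⟩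

theorem Dom.empty : Dom θ lam g ∅ :=
  ⟨PEmpty, PEmpty.elim, by simp, fun i => i.elim, fun _ _ => ⟨PEmpty, id, by simp, by simp⟩⟩

theorem Dom.iUnion (hθ : ℵ₀ ≤ θ) (hl : ℵ₀ ≤ lam) {T : Type u} (h1 : #T ≤ θ) (h2 : #T ≤ lam)
    {A : T → Set X} (h : ∀ t, Dom θ lam g (A t)) : Dom θ lam g (⋃ t, A t) := by
  choose ι φ hι hφ hd using h
  refine ⟨Σ t, ι t, fun s => φ s.1 s.2, mk_sigma_le hl h2 hι, fun s => hφ s.1 s.2, fun f hf => ?_⟩
  choose J j hJ hj using fun t => hd t f hf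
  refine ⟨Σ t, J t, fun s => ⟨s.1, j s.1 s.2⟩, mk_sigma_le hθ h1 hJ, fun x hx => ?_⟩
  obtain ⟨t, ht⟩ := mem_iUnion.1 hx
  obtain ⟨a, ha⟩ := hj t x ht
  exact ⟨⟨t, a⟩, ha⟩

theorem Dom.image {Y : Type u} {g' : Y → Ordinal.{u}} {B : Set Y} (h : Dom θ lam g' B)
    (e : Y → X) (he : InjOn e B) (hg : ∀ y ∈ B, g (e y) = g' y) (h0 : ∀ x, 0 < g x)
    (h0' : ∀ y, 0 < g' y) : Dom θ lam g (e '' B) := by
  classical
  obtain ⟨ι, φ, hι, hφ, hd⟩ := h
  refine ⟨ι, fun i x => if h : ∃ y ∈ B, e y = x then φ i h.choose else 0, hι, fun i x => ?_,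
    fun f hf => ?_⟩
  · dsimp only
    split_ifs with h
    · have := hφ i h.choose
      rwa [← hg _ h.choose_spec.1, h.choose_spec.2] at this
    · exact h0 x
  · obtain ⟨J, j, hJ, hj⟩ := hd (fun y => if y ∈ B then f (e y) else 0) (fun y => by
      split_ifs with h
      · rw [← hg y h]
        exact hf _
      · exact h0' y)
    refine ⟨J, j, hJ, ?_⟩
    rintro _ ⟨y, hy, rfl⟩
    obtain ⟨a, ha⟩ := hj y hy
    have h1 : ∃ y' ∈ B, e y' = e y := ⟨y, hy, rfl⟩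
    refine ⟨a, ?_⟩
    dsimp only at ha ⊢
    rw [dif_pos h1, he h1.choose_spec.1 hy h1.choose_spec.2]
    rwa [if_pos hy] at ha

/-- Membership in the countably closed ideal of level `lam`. -/
def KK (lam : Cardinal.{u}) {X : Type u} (g : X → Ordinal.{u}) (A : Set X) : Prop :=
  Dom ℵ₀ (max lam ℵ₀) g A

theorem KK.mono {A B : Set X} {lam' : Cardinal.{u}} (h : KK lam g A) (h2 : lam ≤ lam')
    (h3 : B ⊆ A) : KK lam' g B :=
  Dom.mono h le_rfl (max_le_max h2 le_rfl) h3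

/-- The dual filter. -/
def KF (lam : Cardinal.{u}) {X : Type u} (g : X → Ordinal.{u}) : Filter X :=
  ofCountableUnion {A | KK lam g A}
    (fun S hS h => by
      have : #S ≤ ℵ₀ := le_aleph0_iff_set_countable.2 hS
      rw [sUnion_eq_iUnion]
      exact Dom.iUnion le_rfl (le_max_right _ _) this (this.trans (le_max_right _ _))
        (fun t => h t.1 t.2))
    (fun _ ht _ hs => KK.mono ht le_rfl hs)

instance : CountableInterFilter (KF lam g) := countableInter_ofCountableUnion _ _ _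

theorem mem_KF {B : Set X} : B ∈ KF lam g ↔ KK lam g Bᶜ := mem_ofCountableUnion

theorem ev_KF {p : X → Prop} : (∀ᶠ x in KF lam g, p x) ↔ KK lam g {x | ¬ p x} := mem_KF

theorem KK.ev {A : Set X} (h : KK lam g A) : ∀ᶠ x in KF lam g, x ∉ A := by
  rw [ev_KF]
  simpa using h

theorem KF_anti {lam' : Cardinal.{u}} (h : lam ≤ lam') : KF lam' g ≤ KF lam g :=
  fun _ hB => mem_KF.2 ((mem_KF.1 hB).mono h le_rfl)

/-- The filter of level strictly below `c`. -/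
def KL (c : Cardinal.{u}) {X : Type u} (g : X → Ordinal.{u}) : Filter X :=
  countableGenerate {B | ∃ c' < c, B ∈ KF c' g}

instance : CountableInterFilter (KL lam g) := by
  unfold KL
  infer_instance

theorem KL_le_KF {c c' : Cardinal.{u}} (h : c' < c) : KL c g ≤ KF c' g :=
  fun _ hB => CountableGenerateSets.basic ⟨c', h, hB⟩

theorem KF_le_KL {c : Cardinal.{u}} : KF c g ≤ KL c g :=
  le_countableGenerate_iff_of_countableInterFilter.2 fun _ ⟨_, h, hB⟩ => KF_anti h.le hB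

theorem exists_seq_of_mem_generate {G : Set (Set X)} {B : Set X} (h : B ∈ countableGenerate G) :
    ∃ s : ℕ → Set X, (∀ n, s n = Set.univ ∨ s n ∈ G) ∧ ∀ x, (∀ n, x ∈ s n) → x ∈ B := by
  obtain ⟨S, h1, h2, h3⟩ := mem_countableGenerate_iff.1 h
  obtain ⟨s, hs⟩ := (h2.insert Set.univ).exists_eq_range (insert_nonempty _ _)
  refine ⟨s, fun n => ?_, fun x hx => h3 fun t ht => ?_⟩
  · have : s n ∈ insert Set.univ S := hs ▸ mem_range_self n
    exact this.imp id fun h => h1 h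
  · have : t ∈ range s := hs ▸ mem_insert_of_mem _ ht
    obtain ⟨n, rfl⟩ := this
    exact hx n

theorem bdd_pointwise {ι : Type u} (h : ∀ x, #ι < (g x).cof) (φ : ι → X → Ordinal.{u})
    (hφ : ∀ i x, φ i x < g x) : ∃ b : X → Ordinal.{u}, (∀ x, b x < g x) ∧ ∀ i x, φ i x < b x :=
  ⟨fun x => ⨆ i, φ i x + 1, fun x => Ordinal.iSup_add_one_lt_of_lt_cof (h x) (fun i => hφ i x),
    fun i x => Ordinal.lt_iSup_add_one (fun i => φ i x) i⟩

theorem KK.eq_empty {A : Set X} (h : KK lam g A) (hc : ∀ x, max lam ℵ₀ < (g x).cof) : A = ∅ := by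
  obtain ⟨ι, φ, hι, hφ, hd⟩ := h
  obtain ⟨b, hb, hb'⟩ := bdd_pointwise (fun x => hι.trans_lt (hc x)) φ hφ
  obtain ⟨J, j, -, hj⟩ := hd b hb
  refine eq_empty_of_forall_notMem fun x hx => ?_
  obtain ⟨a, ha⟩ := hj x hx
  exact (hb' _ _).not_ge ha

theorem KK.const {χ : Cardinal.{u}} (hχ : χ.IsRegular) (hX : #X < χ) (h0 : ∀ x, 0 < g x) :
    KK χ g {x | (g x).cof = χ} := by
  classical
  have h1 : ∀ x, ∃ s : χ.ord.ToType → Ordinal.{u}, (∀ a, s a < g x) ∧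
      ((g x).cof = χ → ∀ y < g x, ∃ a, ∀ b, a < b → y ≤ s b) := by
    intro x
    by_cases hx : (g x).cof = χ
    · obtain ⟨ι, s, h1, h2, h3⟩ := exists_cofinal (g x)
      obtain ⟨e⟩ : Nonempty (χ.ord.ToType ≃ ι) := Cardinal.eq.1 (by rw [mk_ord_toType, h1, hx])
      refine ⟨fun b => ⨆ a : Iio b, s (e a.1), fun b => Ordinal.iSup_lt_of_lt_cof
        (by rw [hx]; exact mk_Iio_ord_toType b) (fun a => h2 _), fun _ y hy => ?_⟩
      obtain ⟨i, hi⟩ := h3 y hy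
      refine ⟨e.symm i, fun b hb => hi.trans ?_⟩
      have := Ordinal.le_iSup (fun a : Iio b => s (e a.1)) ⟨e.symm i, hb⟩
      simpa using this
    · exact ⟨fun _ => 0, fun _ => h0 x, fun h => absurd h hx⟩
  choose s hs hs' using h1
  refine ⟨χ.ord.ToType, fun a x => s x a, by simp, fun a x => hs x a, fun f hf => ?_⟩
  have := nonempty_toType hχ
  have h2 : ∀ x, ∃ a, (g x).cof = χ → ∀ b, a < b → f x ≤ s x b := fun x => by
    by_cases hx : (g x).cof = χ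
    · obtain ⟨a, ha⟩ := hs' x hx _ (hf x)
      exact ⟨a, fun _ => ha⟩
    · exact ⟨Classical.arbitrary _, fun h => absurd h hx⟩
  choose a ha using h2
  obtain ⟨b, hb⟩ := bdd_toType hχ hX a
  exact ⟨PUnit, fun _ => b, by simp, fun x hx => ⟨PUnit.unit, ha x hx b (hb x)⟩⟩

/-- Families of at most `μ` functions below `g` are strictly bounded modulo `F`. -/
def Bdd {X : Type u} (F : Filter X) (g : X → Ordinal.{u}) (μ : Cardinal.{u}) : Prop :=
  ∀ (ι : Type u), #ι ≤ μ → ∀ φ : ι → X → Ordinal.{u}, (∀ i x, φ i x < g x) →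
    ∃ b : X → Ordinal.{u}, (∀ x, b x < g x) ∧ ∀ i, ∀ᶠ x in F, φ i x < b x

theorem Bdd.filter_mono {F F' : Filter X} {μ : Cardinal.{u}} (h : Bdd F g μ) (hF : F' ≤ F) :
    Bdd F' g μ := fun ι hι φ hφ => by
  obtain ⟨b, h1, h2⟩ := h ι hι φ hφ
  exact ⟨b, h1, fun i => (h2 i).filter_mono hF⟩

theorem tower {F : Filter X} {μ : Cardinal.{u}} (hμ : ℵ₀ ≤ μ) (h : ∀ ν < μ, Bdd F g ν)
    {ι : Type u} (hι : #ι ≤ μ) (φ : ι → X → Ordinal.{u}) (hφ : ∀ i x, φ i x < g x) :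
    ∃ f : μ.ord.ToType → X → Ordinal.{u}, (∀ b x, f b x < g x) ∧
      ∀ i, ∃ a, ∀ b, a ≤ b → ∀ᶠ x in F, φ i x < f b x := by
  obtain ⟨e⟩ : Nonempty (ι ↪ μ.ord.ToType) := Cardinal.le_def _ _ |>.1 (by simpa using hι)
  have h1 : ∀ b : μ.ord.ToType, ∃ f : X → Ordinal.{u}, (∀ x, f x < g x) ∧
      ∀ i : {i // e i < b}, ∀ᶠ x in F, φ i.1 x < f x := fun b =>
    h _ (mk_Iio_ord_toType b) {i // e i < b}
      (mk_le_of_injective (f := fun i => (⟨e i.1, i.2⟩ : Iio b))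
        (fun i j hij => Subtype.ext (e.injective (congrArg Subtype.val hij))))
      (fun i => φ i.1) (fun i => hφ i.1)
  choose f hf hf' using h1
  have := noMaxOrder hμ
  refine ⟨f, hf, fun i => ?_⟩
  obtain ⟨a, ha⟩ := exists_gt (e i)
  exact ⟨a, fun b hb => hf' b ⟨i, ha.trans_le hb⟩⟩

theorem bdd_of_singular {F : Filter X} {μ : Cardinal.{u}} (hμ : μ.IsSingular)
    (h : ∀ ν < μ, Bdd F g ν) : Bdd F g μ := by
  intro ι hι φ hφ
  obtain ⟨f, hf, hf'⟩ := tower hμ.aleph0_le h hι φ hφ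
  obtain ⟨S, hS, hS'⟩ := Order.exists_cof_eq μ.ord.ToType
  rw [Ordinal.cof_toType] at hS'
  obtain ⟨b, hb, hb'⟩ := h _ hμ.cof_ord_lt S hS'.le (fun s => f s.1) (fun s => hf s.1)
  refine ⟨b, hb, fun i => ?_⟩
  obtain ⟨a, ha⟩ := hf' i
  obtain ⟨s, hs, hs'⟩ := hS a
  exact ((ha s hs').and (hb' ⟨s, hs⟩)).mono fun x hx => hx.1.trans hx.2

theorem escape {B : Set X} (hB : ¬ KK lam g B) {T : Type u} (hT : #T ≤ max lam ℵ₀)
    {N : T → Set X} (hN : ∀ t, KK lam g (N t)) (f : T → X → Ordinal.{u})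
    (hf : ∀ t x, f t x < g x) :
    ∃ h : X → Ordinal.{u}, (∀ x, h x < g x) ∧ ∀ t, ∃ x ∈ B, x ∉ N t ∧ f t x < h x := by
  choose ι φ hι hφ hd using hN
  by_contra hc
  push Not at hc
  refine hB ⟨Σ t, Option (ι t), fun s => s.2.elim (f s.1) (φ s.1),
    mk_sigma_le (le_max_right _ _) hT (fun t => mk_option_le (le_max_right _ _) (hι t)), ?_,
    fun h hh => ?_⟩
  · rintro ⟨t, _ | i⟩ x
    · exact hf t x
    · exact hφ t i x
  · obtain ⟨t, ht⟩ := hc h hh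
    obtain ⟨J, j, hJ, hj⟩ := hd t h hh
    refine ⟨Option J, fun a => ⟨t, a.map j⟩, mk_option_le le_rfl hJ, fun x hx => ?_⟩
    by_cases hx' : x ∈ N t
    · obtain ⟨a, ha⟩ := hj x hx'
      exact ⟨some a, ha⟩
    · exact ⟨none, ht x hx hx'⟩

/-- Directedness of the product modulo the ideal of level `lam`. -/
theorem bdd_KF {χ : Cardinal.{u}} (hχ : χ.IsRegular) (hX : #X < χ) (hg : ∀ x, χ < (g x).cof)
    (μ : Cardinal.{u}) (hμ : μ ≤ max lam ℵ₀) : Bdd (KF lam g) g μ := by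
  classical
  induction μ using WellFoundedLT.induction with
  | ind μ ih =>
  have ih' : ∀ ν < μ, Bdd (KF lam g) g ν := fun ν hν => ih ν hν (hν.le.trans hμ)
  by_cases h1 : μ ≤ χ
  · intro ι hι φ hφ
    obtain ⟨b, hb, hb'⟩ := bdd_pointwise (fun x => (hι.trans h1).trans_lt (hg x)) φ hφ
    exact ⟨b, hb, fun i => Eventually.of_forall (hb' i)⟩
  push Not at h1
  have h2 : ℵ₀ ≤ μ := hχ.aleph0_le.trans h1.le
  rcases isRegular_or_isSingular h2 with hr | hs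
  swap
  · exact bdd_of_singular hs ih'
  intro ι hι φ hφ
  obtain ⟨f, hf, hf'⟩ := tower h2 ih' hι φ hφ
  by_contra hc
  push Not at hc
  have h3 : ∀ G : {h : X → Ordinal.{u} // ∀ x, h x < g x},
      ∃ (a : μ.ord.ToType) (G' : {h : X → Ordinal.{u} // ∀ x, h x < g x}),
      (∀ x, G.1 x ≤ G'.1 x) ∧ ∀ b, a ≤ b → ∃ x, G.1 x < f b x ∧ ¬ G'.1 x < f b x := by
    rintro ⟨G, hG⟩
    obtain ⟨i, hi⟩ := hc (fun x => G x + 1)
      (fun x => succ_lt_of_cof (hχ.aleph0_le.trans (hg x).le) (hG x))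
    obtain ⟨a, ha⟩ := hf' i
    rw [Filter.Frequently, ev_KF] at hi
    obtain ⟨h, hh, hh'⟩ := escape hi (T := {b // a ≤ b})
      ((mk_subtype_le _).trans (by simpa using hμ))
      (fun b => ev_KF.1 (ha b.1 b.2)) (fun b => f b.1) (fun b => hf b.1)
    refine ⟨a, ⟨fun x => max (G x) (h x), fun x => max_lt (hG x) (hh x)⟩, fun x => le_max_left _ _,
      fun b hb => ?_⟩
    obtain ⟨x, hx1, hx2, hx3⟩ := hh' ⟨b, hb⟩
    simp only [mem_setOf_eq, not_not] at hx1 hx2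
    refine ⟨x, ?_, fun h4 => ?_⟩
    · exact ((Order.lt_add_one_iff.2 le_rfl).trans_le hx1).trans hx2
    · exact (hx3.trans_le (le_max_right _ _)).not_gt h4
  choose a P hP hP' using h3
  obtain ⟨G, hG⟩ := rec_exists (α := χ.ord.ToType) (β := {h : X → Ordinal.{u} // ∀ x, h x < g x})
    (fun α prev new => ∀ α' (h : α' < α) x, (P (prev α' h)).1 x ≤ new.1 x) (fun α prev => by
      obtain ⟨b, hb, hb'⟩ := bdd_pointwise (ι := Iio α)
        (fun x => (mk_Iio_ord_toType α).trans (hg x)) (fun α' => (P (prev α'.1 α'.2)).1)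
        (fun α' => (P (prev α'.1 α'.2)).2)
      exact ⟨⟨b, hb⟩, fun α' h x => (hb' ⟨α', h⟩ x).le⟩)
  obtain ⟨b, hb⟩ := bdd_toType hr (ι := χ.ord.ToType) (by simpa using h1) (fun α => a (G α))
  obtain ⟨α, hα⟩ := anti_stab hχ hX (fun α x => if (G α).1 x < f b x then (1 : Ordinal.{u}) else 0)
    (fun α α' x hle => by
      rcases hle.eq_or_lt with rfl | hlt
      · exact le_rfl
      · have := (hP (G α) x).trans (hG α' α hlt x)
        split_ifs with h4 h5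
        · exact le_rfl
        · exact absurd (this.trans_lt h4) h5
        · exact zero_le
        · exact le_rfl)
  have := noMaxOrder hχ.aleph0_le
  obtain ⟨α', hα'⟩ := exists_gt α
  obtain ⟨x, hx1, hx2⟩ := hP' (G α) b (hb α).le
  have h4 := congrFun (hα α' hα'.le) x
  rw [if_pos hx1, if_neg (fun h => hx2 ((hG α' α hα' x).trans_lt h))] at h4
  exact zero_ne_one h4

end Pool.Agent.Lib.MP_414261_lc
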