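import Pool.Agent.Lib.MP_414261_lc.Scale

/-! Exact upper bounds modulo a closed filter. -/

namespace Pool.Agent.Lib.MP_414261_lc

open Cardinal Set Filter Order

universe u v w

variable {X : Type u} {κ : Cardinal.{u}} {W : Filter κ.ord.ToType}

/-- Least element of `S ∪ {b}` above `h`. -/
noncomputable def pr (b : Ordinal.{u}) (S : Set Ordinal.{u}) (h : Ordinal.{u}) : Ordinal.{u} :=
  sInf {s | (s = b ∨ s ∈ S) ∧ h ≤ s}

theorem pr_mem {b h : Ordinal.{u}} (S : Set Ordinal.{u}) (hb : h ≤ b) :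
    (pr b S h = b ∨ pr b S h ∈ S) ∧ h ≤ pr b S h :=
  csInf_mem (s := {s | (s = b ∨ s ∈ S) ∧ h ≤ s}) ⟨b, Or.inl rfl, hb⟩

theorem pr_le {b h s : Ordinal.{u}} {S : Set Ordinal.{u}} (hs : s = b ∨ s ∈ S) (hh : h ≤ s) :
    pr b S h ≤ s :=
  csInf_le' (s := {s | (s = b ∨ s ∈ S) ∧ h ≤ s}) ⟨hs, hh⟩

theorem cofinal_fun {K : Type u} {o : Ordinal.{u}} (h0 : 0 < o) (h : o.cof ≤ #K) :
    ∃ s : K → Ordinal.{u}, (∀ η, s η < o) ∧ ∀ y < o, ∃ η, y ≤ s η := by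
  obtain ⟨ι, s, h1, h2, h3⟩ := exists_cofinal o
  obtain ⟨k, hk, hk'⟩ := exists_cover_fun (h1.le.trans h) s 0 (· < o) h2 h0
  refine ⟨k, hk, fun y hy => ?_⟩
  obtain ⟨i, hi⟩ := h3 y hy
  obtain ⟨t, ht⟩ := hk' i
  exact ⟨t, ht ▸ hi⟩

section
variable (H : QM κ W) (hX : #X < κ) {I : Filter X} (hI : WC W I) {δ : Ordinal.{u}}
  (hδ : κ < δ.cof) {f : Ordinal.{u} → X → Ordinal.{u}}
  (hf : ∀ β β', β < β' → β' < δ → ∀ᶠ x in I, f β x < f β' x)
  {b : X → Ordinal.{u}} (hb : ∀ β x, f β x ≤ b x)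

include hf in
theorem incr_le {β β' : Ordinal.{u}} (h : β ≤ β') (h' : β' < δ) : ∀ᶠ x in I, f β x ≤ f β' x := by
  rcases h.eq_or_lt with rfl | h
  · exact Eventually.of_forall fun _ => le_rfl
  · exact (hf β β' h h').mono fun _ hx => hx.le

include H hX hI hδ hf in
theorem QM.stab {T : Type u} (hT : #T < κ) (S : T → X → Ordinal.{u}) :
    ∃ β₀ < δ, ∀ β, β₀ ≤ β → β < δ → ∀ᶠ x in I, ∀ t, S t x < f β x → S t x < f β₀ x := by
  obtain ⟨d, hd, hpd⟩ := H.pd_prod hX hI hT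
  obtain ⟨J, j, hJ, hj⟩ := hpd.idx (fun p : {p : Ordinal.{u} × Ordinal.{u} // p.2 < δ} =>
    {y : X × T | S y.2 y.1 < f p.1.2 y.1 ∧ ¬ S y.2 y.1 < f p.1.1 y.1})
  have h1 : (⨆ a, (j a).1.2) < δ :=
    Ordinal.iSup_lt_of_lt_cof ((hJ.trans_lt hd).trans hδ) fun a => (j a).2
  refine ⟨_, h1, fun β _ h3 => ?_⟩
  by_contra hc
  obtain ⟨a, ha⟩ := hj ⟨(⨆ a, (j a).1.2, β), h3⟩ (by
    rw [frequently_comap]
    refine (not_eventually.1 hc).mono fun x hx => ?_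
    push Not at hx
    obtain ⟨t, ht⟩ := hx
    exact ⟨(x, t), rfl, ht.1, not_lt.2 ht.2⟩)
  rw [frequently_comap] at ha
  refine ha ((incr_le hf (Ordinal.le_iSup (fun a => (j a).1.2) a) h1).mono ?_)
  rintro x hx ⟨⟨_, t⟩, rfl, h4, h5⟩
  exact h4.2 (h5.1.trans_le hx)

include H hX hI hδ hf hb in
theorem QM.proj_ub {T : Type u} (hT : #T < κ) (S : T → X → Ordinal.{u}) :
    ∃ β₀ < δ, ∀ β < δ, ∀ᶠ x in I, f β x ≤ pr (b x) (range fun t => S t x) (f β₀ x) := by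
  obtain ⟨β₀, h1, h2⟩ := H.stab hX hI hδ hf hT S
  refine ⟨β₀, h1, fun β hβ => ?_⟩
  rcases le_total β β₀ with h | h
  · exact (incr_le hf h h1).mono fun x hx => hx.trans (pr_mem _ (hb β₀ x)).2
  · refine (h2 β h hβ).mono fun x hx => ?_
    obtain ⟨h3 | ⟨t, ht⟩, h4⟩ := pr_mem (range fun t => S t x) (hb β₀ x)
    · rw [h3]
      exact hb β x
    · by_contra hc
      rw [← ht] at hc h4
      exact (hx t (not_le.1 hc)).not_ge h4

include H hX hI hδ hf hb in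
theorem QM.exists_lub : ∃ g : X → Ordinal.{u}, (∀ x, g x ≤ b x) ∧
    (∀ β < δ, ∀ᶠ x in I, f β x ≤ g x) ∧
    ∀ u : X → Ordinal.{u}, (∀ β < δ, ∀ᶠ x in I, f β x ≤ u x) → ∀ᶠ x in I, g x ≤ u x := by
  by_contra hc
  push Not at hc
  obtain ⟨G, hG⟩ := rec_exists (α := κ.ord.ToType) (β := X → Ordinal.{u})
    (fun ξ prev new => ∃ β₀ < δ, ∀ β, β₀ ≤ β → β < δ → ∃ x, f β x ≤ new x ∧
      new x < pr (b x) (range fun t : Iio ξ => prev t.1 t.2 x) (f β x)) (fun ξ prev => by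
      obtain ⟨β₀, h1, h2⟩ := H.proj_ub hX hI hδ hf hb (H.iio ξ) (fun t : Iio ξ => prev t.1 t.2)
      obtain ⟨u, hu, hu'⟩ := hc _ (fun x => pr_le (Or.inl rfl) (hb β₀ x)) h2
      refine ⟨u, β₀, h1, fun β h3 h4 => ?_⟩
      obtain ⟨x, a1, a2, a3⟩ := (hu'.and_eventually ((hu β h4).and (incr_le hf h3 h4))).exists
      refine ⟨x, a2, a1.trans_le ?_⟩
      have := pr_mem (range fun t : Iio ξ => prev t.1 t.2 x) (hb β x)
      exact pr_le this.1 (a3.trans this.2))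
  choose β₀ h1 h2 using hG
  have h3 : (⨆ ξ, β₀ ξ) < δ := Ordinal.iSup_lt_of_lt_cof (by rwa [H.mkK]) h1
  obtain ⟨ξ, hξ⟩ := anti_stab H.reg hX
    (fun ξ x => pr (b x) (range fun t : Iio ξ => G t.1 x) (f (⨆ ξ, β₀ ξ) x))
    (fun ξ ξ' x hle => by
      have := pr_mem (range fun t : Iio ξ => G t.1 x) (hb (⨆ ξ, β₀ ξ) x)
      refine pr_le (this.1.imp id ?_) this.2
      rintro ⟨t, ht⟩
      exact ⟨⟨t.1, lt_of_lt_of_le t.2 hle⟩, ht⟩)
  have := noMaxOrder H.unc.le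
  obtain ⟨ξ', hξ'⟩ := exists_gt ξ
  obtain ⟨x, a1, a2⟩ := h2 ξ _ (Ordinal.le_iSup β₀ ξ) h3
  rw [← congrFun (hξ ξ' hξ'.le) x] at a2
  exact a2.not_ge (pr_le (Or.inr ⟨⟨ξ, hξ'⟩, rfl⟩) a1)

include H hX hI hδ hf hb in
theorem QM.exists_eub : ∃ g : X → Ordinal.{u}, (∀ x, g x ≤ max (b x) (succ κ).ord) ∧
    (∀ x, κ < (g x).cof) ∧ Scale I g δ := by
  classical
  obtain ⟨g, h1, h2, h3⟩ := H.exists_lub hX hI hδ hf hb
  have hn : ∀ (T : Type u), #T < κ → ∀ S : T → X → Ordinal.{u}, ∃ β₀ < δ, ∀ β, β₀ ≤ β → β < δ →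
      ∀ᶠ x in I, ∀ t, S t x < g x → S t x < f β x := by
    intro T hT S
    obtain ⟨β₀, a1, a2⟩ := H.proj_ub hX hI hδ hf hb hT S
    refine ⟨β₀, a1, fun β a3 a4 => ((h3 _ a2).and (incr_le hf a3 a4)).mono fun x hx t ht => ?_⟩
    refine lt_of_lt_of_le ?_ hx.2
    by_contra hc
    exact (ht.trans_le hx.1).not_ge (pr_le (Or.inr ⟨t, rfl⟩) (not_lt.1 hc))
  have hlt : ∀ β < δ, ∀ᶠ x in I, f β x < g x := fun β hβ => by
    have := succ_lt_of_cof (H.unc.trans hδ).le hβ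
    exact ((hf β _ (lt_add_one β) this).and (h2 _ this)).mono fun x hx => hx.1.trans_le hx.2
  have hcof : ∀ᶠ x in I, κ < (g x).cof := by
    have a1 : ∀ x, ∃ s : κ.ord.ToType → Ordinal.{u}, 0 < g x → (g x).cof ≤ κ →
        (∀ η, s η < g x) ∧ ∀ y < g x, ∃ η, y ≤ s η := fun x => by
      by_cases h : 0 < g x ∧ (g x).cof ≤ κ
      · obtain ⟨s, hs⟩ := cofinal_fun (K := κ.ord.ToType) h.1 (by rw [H.mkK]; exact h.2)
        exact ⟨s, fun _ _ => hs⟩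
      · exact ⟨fun _ => 0, fun a b => absurd ⟨a, b⟩ h⟩
    choose s hs using a1
    choose β₀ a2 a3 using fun ξ => hn (Iio ξ) (H.iio ξ) (fun t x => s x t.1)
    have a4 : (⨆ ξ, β₀ ξ) < δ := Ordinal.iSup_lt_of_lt_cof (by rwa [H.mkK]) a2
    have := nonempty_toType H.reg
    have a5 : ∀ x, ∃ η, f (⨆ ξ, β₀ ξ) x < g x → (g x).cof ≤ κ → f (⨆ ξ, β₀ ξ) x ≤ s x η := by
      intro x
      by_cases h : f (⨆ ξ, β₀ ξ) x < g x ∧ (g x).cof ≤ κ
      · obtain ⟨η, hη⟩ := (hs x (lt_of_le_of_lt zero_le h.1) h.2).2 _ h.1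
        exact ⟨η, fun _ _ => hη⟩
      · exact ⟨Classical.arbitrary _, fun a b => absurd ⟨a, b⟩ h⟩
    choose η hη using a5
    obtain ⟨ξ, hξ⟩ := bdd_toType H.reg hX η
    refine ((a3 ξ _ (Ordinal.le_iSup β₀ ξ) a4).and (hlt _ a4)).mono fun x hx => ?_
    by_contra hc
    have a6 := (hs x (lt_of_le_of_lt zero_le hx.2) (not_lt.1 hc)).1 (η x)
    exact (hx.1 ⟨η x, hξ x⟩ a6).not_ge (hη x hx.2 (not_lt.1 hc))
  have hs : κ < (succ κ).ord.cof := by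
    rw [(isRegular_succ H.unc.le).cof_ord]
    exact lt_succ κ
  have hg' : ∀ x, κ < (if κ < (g x).cof then g x else (succ κ).ord).cof := fun x => by
    split_ifs with h
    · exact h
    · exact hs
  refine ⟨fun x => if κ < (g x).cof then g x else (succ κ).ord, fun x => ?_, hg',
    fun β x => if f β x < (if κ < (g x).cof then g x else (succ κ).ord) then f β x else 0,
    fun β x => ?_, fun φ hφ => ?_⟩
  · dsimp only
    split_ifs
    · exact (h1 x).trans (le_max_left _ _)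
    · exact le_max_right _ _
  · dsimp only
    by_cases h : f β x < (if κ < (g x).cof then g x else (succ κ).ord)
    · rw [if_pos h]
      exact h
    · rw [if_neg h]
      exact pos_of_cof (hg' x)
  · obtain ⟨β₀, a1, a2⟩ := hn PUnit (by simpa using one_lt_aleph0.trans H.unc) (fun _ => φ)
    refine ⟨β₀, a1, fun β a3 a4 => ((a2 β a3 a4).and ((hlt β a4).and hcof)).mono fun x hx => ?_⟩
    have := hφ x
    simp only [if_pos hx.2.2] at this ⊢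
    rw [if_pos hx.2.1]
    exact hx.1 PUnit.unit this

end

end Pool.Agent.Lib.MP_414261_lc
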