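import Pool.Agent.Lib.MP_414261_lc.Cov
import Pool.Agent.Lib.MP_414261_lc.Defs

/-! Canonical functions and the count of the second image. -/

namespace Pool.Agent.Lib.MP_414261_lc

open Cardinal Set Filter Order

universe u v w

variable {κ : Cardinal.{u}} {W : Filter κ.ord.ToType}

theorem pos_iff {K : Type u} {W : Filter K} {X : Set K} : Pos W X ↔ ∃ᶠ i in W, i ∈ X := Iff.rfl

theorem Rep.mono {K : Type u} {W : Filter K} {q q' : Set K} {τ σ : Ordinal.{u}} (h : Rep W q τ σ)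
    (hq : q' ⊆ q) : Rep W q' τ σ := by
  obtain ⟨e, h1, h2⟩ := h
  exact ⟨e, fun β γ h => (h1 β γ h).mono fun i hi hi' => hi (hq hi'),
    fun f r hr => h2 f r (hr.trans hq)⟩

theorem QM.canon (H : QM κ W) : ∃ e : Ordinal.{u} → κ.ord.ToType → Ordinal.{u},
    (∀ β γ, γ < β → ∀ᶠ i in W, e γ i < e β i) ∧
    ∀ β (f : κ.ord.ToType → Ordinal.{u}) (A : Set κ.ord.ToType), (∃ᶠ i in W, i ∈ A) →
      (∀ i ∈ A, f i < e β i) → ∃ γ < β, ∃ᶠ i in W, i ∈ A ∧ f i = e γ i := by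
  obtain ⟨e, he⟩ := rec_exists (α := Ordinal.{u}) (β := κ.ord.ToType → Ordinal.{u})
    (fun β prev new => (∀ j : Iio β, ∀ᶠ i in W, prev j.1 j.2 i < new i) ∧
      ∀ (f' : κ.ord.ToType → Ordinal.{u}) (A : Set κ.ord.ToType), (∀ i ∈ A, f' i < new i) →
        (∀ j : Iio β, ∀ᶠ i in W, i ∈ A → prev j.1 j.2 i < f' i) → ∀ᶠ i in W, i ∉ A)
    (fun β prev => by
      obtain ⟨f, -, h2, h3⟩ := H.lub (fun j : Iio β => prev j.1 j.2)
        (fun i => ⨆ j : Iio β, prev j.1 j.2 i + 1) (fun j => Eventually.of_forall fun i =>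
          Ordinal.lt_iSup_add_one (fun j : Iio β => prev j.1 j.2 i) j)
      exact ⟨f, h2, h3⟩)
  refine ⟨e, fun β γ h => (he β).1 ⟨γ, h⟩, fun β => ?_⟩
  induction β using WellFoundedLT.induction with
  | ind β ih =>
  intro f A hA hf
  have h1 := mt ((he β).2 f A hf) hA
  push Not at h1
  obtain ⟨⟨γ, hγ⟩, h2⟩ := h1
  rcases frequently_or_distrib.1 (h2.mono fun i hi => show (i ∈ A ∧ f i = e γ i) ∨
      (i ∈ A ∧ f i < e γ i) from hi.2.eq_or_lt.imp (fun h => ⟨hi.1, h⟩) fun h => ⟨hi.1, h⟩) with h | h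
  · exact ⟨γ, hγ, h⟩
  · obtain ⟨γ', a1, a2⟩ := ih γ hγ f {i | i ∈ A ∧ f i < e γ i} h fun i hi => hi.2
    exact ⟨γ', a1.trans hγ, a2.mono fun i hi => ⟨hi.1.1, hi.2⟩⟩

theorem QM.exists_rep (H : QM κ W) (τ : Ordinal.{u}) {p : Set κ.ord.ToType} (hp : Pos W p) :
    ∃ q ⊆ p, Pos W q ∧ ∃ σ, Rep W q τ σ := by
  classical
  obtain ⟨e, h1, h2⟩ := H.canon
  have h3 : ∃ β, ∃ᶠ i in W, i ∈ p ∧ τ < e β i := by
    by_contra hc
    push Not at hc
    refine not_injective_of_ordinal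
      (fun β i => (⟨min (e β i) τ, mem_Iic.2 (min_le_right _ _)⟩ : Iic τ)) fun β γ h => ?_
    have h4 : ∀ β γ, γ < β → ∃ i, min (e γ i) τ < min (e β i) τ := fun β γ h => by
      obtain ⟨i, a1, a2, a3⟩ := ((pos_iff.1 hp).and_eventually ((h1 β γ h).and (hc β))).exists
      exact ⟨i, by rw [min_eq_left (a3 a1), min_eq_left (a2.le.trans (a3 a1))]; exact a2⟩
    rcases lt_trichotomy β γ with h' | h' | h'
    · obtain ⟨i, hi⟩ := h4 γ β h'
      exact absurd (congrArg Subtype.val (congrFun h i)) hi.ne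
    · exact h'
    · obtain ⟨i, hi⟩ := h4 β γ h'
      exact absurd (congrArg Subtype.val (congrFun h i)) hi.ne'
  obtain ⟨β, hβ⟩ := h3
  obtain ⟨σ, -, hσ⟩ := h2 β (fun _ => τ) {i | i ∈ p ∧ τ < e β i} hβ fun i hi => hi.2
  have hq : ∃ᶠ i in W, i ∈ p ∧ τ = e σ i := hσ.mono fun i hi => ⟨hi.1.1, hi.2⟩
  let v : σ.ToType → Ordinal.{u} := fun γ => (Ordinal.ToType.mk.symm γ).1
  have hv : ∀ γ, ∀ᶠ i in W, e (v γ) i < e σ i := fun γ => h1 _ _ (Ordinal.ToType.mk.symm γ).2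
  have hd : ∀ _ : σ.ToType, Nonempty τ.ToType := fun γ => by
    obtain ⟨i, a1, a2⟩ := (hq.and_eventually (hv γ)).exists
    exact ⟨Ordinal.ToType.mk ⟨_, a2.trans_eq a1.2.symm⟩⟩
  refine ⟨{i | i ∈ p ∧ τ = e σ i}, fun i hi => hi.1, hq, σ,
    fun γ i => if h : e (v γ) i < τ then Ordinal.ToType.mk ⟨_, h⟩ else (hd γ).some,
    fun γ γ' h => ?_, fun f r hr hr' => ?_⟩
  · refine ((h1 (v γ') (v γ) (Ordinal.ToType.mk.symm.strictMono h)).and (hv γ')).mono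
      fun i hi hi' => ?_
    have a1 : e (v γ') i < τ := hi.2.trans_eq hi'.2.symm
    simp only [dif_pos a1, dif_pos (hi.1.trans a1)]
    exact Ordinal.ToType.mk.strictMono hi.1
  · obtain ⟨γ, a1, a2⟩ := h2 σ (fun i => (Ordinal.ToType.mk.symm (f i)).1) r hr' fun i hi =>
      lt_of_lt_of_eq (Ordinal.ToType.mk.symm (f i)).2 (hr hi).2
    refine ⟨Ordinal.ToType.mk ⟨γ, a1⟩, pos_iff.2 (a2.mono fun i hi => ⟨hi.1, ?_⟩)⟩
    have a3 : v (Ordinal.ToType.mk ⟨γ, a1⟩) = γ := by simp [v]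
    have a4 : e γ i < τ := hi.2 ▸ (Ordinal.ToType.mk.symm (f i)).2
    simp only [a3, dif_pos a4]
    rw [← OrderIso.apply_symm_apply Ordinal.ToType.mk (f i)]
    exact congrArg _ (Subtype.ext hi.2)

theorem QM.rep_small (H : QM κ W) {τ : Ordinal.{u}} (hτ : τ.card < κ) (q : Set κ.ord.ToType) :
    Rep W q τ τ :=
  ⟨fun β _ => β, fun _ _ h => Eventually.of_forall fun _ _ => h, fun f r _ hr =>
    H.ex (by simpa using hτ) (p := fun i β => i ∈ r ∧ f i = β)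
      ((pos_iff.1 hr).mono fun i hi => ⟨_, hi, rfl⟩)⟩

theorem QM.countable_agree (H : QM κ W) {S L : Type u} {q : Set κ.ord.ToType}
    {e : S → κ.ord.ToType → L} (he : ∀ β γ, β ≠ γ → ∀ᶠ i in W, i ∈ q → e β i ≠ e γ i)
    (f : κ.ord.ToType → L) : {β | ∃ᶠ i in W, i ∈ q ∧ f i = e β i}.Countable :=
  countable_pos H.ccc (fun β => {i | i ∈ q ∧ f i = e β i}) fun β γ h =>
    (he β γ h).mono fun _ hi hi' => hi hi'.1.1 (hi'.1.2.symm.trans hi'.2.2)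

theorem QM.card_le (H : QM κ W) {S L ι : Type u} {q : Set κ.ord.ToType}
    {e : S → κ.ord.ToType → L} (he : ∀ β γ, β ≠ γ → ∀ᶠ i in W, i ∈ q → e β i ≠ e γ i)
    (F : ι → κ.ord.ToType → L) (hF : ∀ f : κ.ord.ToType → L, ∃ j, ∃ᶠ i in W, i ∈ q ∧ f i = F j i) :
    #S ≤ max #ι ℵ₀ := by
  choose j hj using fun β => hF (e β)
  refine (mk_le_of_injective (f := fun β => (⟨j β, β, (hj β).mono fun i hi => ⟨hi.1, hi.2.symm⟩⟩ :
    Σ t, {β | ∃ᶠ i in W, i ∈ q ∧ F t i = e β i})) fun β γ h => ?_).trans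
    (mk_sigma_le (le_max_right _ _) (le_max_left _ _) fun t =>
      (le_aleph0_iff_set_countable.2 (H.countable_agree he _)).trans (le_max_right _ _))
  exact congrArg (fun s : Σ t, {β | ∃ᶠ i in W, i ∈ q ∧ F t i = e β i} => s.2.1) h

theorem QM.dense_family (H : QM κ W) {S L : Type u} [Nonempty S] (hL : κ ≤ #L)
    {Θ : Type u} (hΘ : #Θ < κ)
    (hcov : ∀ R : Type u, #R < κ → ∃ c : L → R → L, ∀ v : R → L,
      ∃ J : Θ → L, ∀ r, ∃ ε r', c (J ε) r' = v r)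
    {q : Set κ.ord.ToType} (hq : ∃ᶠ i in W, i ∈ q) {e : S → κ.ord.ToType → L}
    (he : ∀ β γ, β ≠ γ → ∀ᶠ i in W, i ∈ q → e β i ≠ e γ i)
    (hd : ∀ (f : κ.ord.ToType → L) (r : Set κ.ord.ToType), r ⊆ q → (∃ᶠ i in W, i ∈ r) →
      ∃ β, ∃ᶠ i in W, i ∈ r ∧ f i = e β i) :
    ∃ F : S × S → κ.ord.ToType → S, ∀ f : κ.ord.ToType → S,
      ∃ j, ∃ᶠ i in W, i ∈ q ∧ f i = F j i := by
  classical
  obtain ⟨h, h1, h2⟩ := H.exists_least
  choose c hc using fun i => hcov (Iio (h i)) (H.iio _)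
  have hne := nonempty_toType H.reg
  have : Nonempty L := mk_ne_zero_iff.1 (H.reg.pos.trans_le hL).ne'
  let cc : S → κ.ord.ToType → κ.ord.ToType → L := fun β x i =>
    if hx : x < h i then c i (e β i) ⟨x, hx⟩ else Classical.arbitrary _
  have h3 : ∀ β x, ∃ s : ℕ → S, ∀ γ, (∃ᶠ i in W, i ∈ q ∧ cc β x i = e γ i) → ∃ n, s n = γ := by
    intro β x
    obtain ⟨s, hs⟩ := ((H.countable_agree he (cc β x)).insert
      (Classical.arbitrary S)).exists_eq_range (insert_nonempty _ _)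
    exact ⟨s, fun γ hγ => show γ ∈ range s from hs ▸ mem_insert_of_mem _ hγ⟩
  choose s hs using h3
  obtain ⟨m⟩ : Nonempty (κ.ord.ToType × ULift.{u} ℕ ↪ L) := Cardinal.le_def _ _ |>.1 (by
    simpa [Cardinal.mul_eq_max H.unc.le le_rfl, H.unc.le] using hL)
  refine ⟨fun j i => s j.1 (Function.invFun m (e j.2 i)).1 (Function.invFun m (e j.2 i)).2.down,
    fun f => ?_⟩
  choose J hJ using fun i => hc i (fun k => e (f k.1) i)
  have h4 : ∀ᶠ i in W, ∀ ε, i ∈ q →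
      ∃ β, (∃ᶠ i' in W, i' ∈ q ∧ J i' ε = e β i') ∧ J i ε = e β i := by
    refine H.all hΘ fun ε => ?_
    by_contra hcon
    obtain ⟨β, hβ⟩ := hd (fun i => J i ε) {i | ¬ (i ∈ q →
      ∃ β, (∃ᶠ i' in W, i' ∈ q ∧ J i' ε = e β i') ∧ J i ε = e β i)}
      (fun i hi => (Classical.not_imp.1 hi).1) (not_eventually.1 hcon)
    obtain ⟨i, a1, a2⟩ := hβ.exists
    exact a1 fun _ => ⟨β, hβ.mono fun i hi => ⟨(Classical.not_imp.1 hi.1).1, hi.2⟩, a2⟩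
  have hB : #(Σ ε : Θ, {β | ∃ᶠ i' in W, i' ∈ q ∧ J i' ε = e β i'}) < κ :=
    (mk_sigma_le (le_max_right _ _) (le_max_left _ _) fun ε =>
      (le_aleph0_iff_set_countable.2 (H.countable_agree he _)).trans (le_max_right _ _)).trans_lt
      (max_lt hΘ H.unc)
  have h5 : ∀ k, ∃ (b : Σ ε : Θ, {β | ∃ᶠ i' in W, i' ∈ q ∧ J i' ε = e β i'})
      (y : κ.ord.ToType × ULift.{u} ℕ), s b.2.1 y.1 y.2.down = f k := by
    intro k
    obtain ⟨b, hb⟩ := H.ex hB (p := fun i b => i ∈ q ∧ ∃ x, x < h i ∧ cc b.2.1 x i = e (f k) i)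
      ((hq.and_eventually (h4.and (h1 k))).mono fun i hi => by
        obtain ⟨ε, x, hx⟩ := hJ i ⟨k, hi.2.2⟩
        obtain ⟨β, a1, a2⟩ := hi.2.1 ε hi.1
        refine ⟨⟨ε, β, a1⟩, hi.1, x.1, x.2, ?_⟩
        simp only [cc, dif_pos (show x.1 < h i from x.2)]
        rw [← a2]
        exact hx)
    have a1 : ∀ i, ∃ x, (∃ x, x < h i ∧ cc b.2.1 x i = e (f k) i) →
        x < h i ∧ cc b.2.1 x i = e (f k) i := fun i => by
      by_cases hx : ∃ x, x < h i ∧ cc b.2.1 x i = e (f k) i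
      · obtain ⟨x, hx⟩ := hx
        exact ⟨x, fun _ => hx⟩
      · exact ⟨i, fun h => absurd h hx⟩
    choose x hx using a1
    obtain ⟨x₀, hx₀⟩ := h2 x _ hb fun i hi => (hx i hi.2).1
    obtain ⟨n, hn⟩ := hs b.2.1 x₀ (f k) (hx₀.mono fun i hi => ⟨hi.1.1, hi.2 ▸ (hx i hi.1.2).2⟩)
    exact ⟨b, (x₀, ⟨n⟩), hn⟩
  choose b y hy using h5
  obtain ⟨b₀, hb₀⟩ := H.ex hB (p := fun i b₀ => i ∈ q ∧ b i = b₀) (hq.mono fun i hi => ⟨_, hi, rfl⟩)
  obtain ⟨δ, hδ⟩ := hd (fun i => m (y i)) _ (fun i hi => hi.1) hb₀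
  refine ⟨(b₀.2.1, δ), hδ.mono fun i hi => ⟨hi.1.1, ?_⟩⟩
  dsimp only
  rw [← hi.2, Function.leftInverse_invFun m.injective, ← hi.1.2, hy]

theorem QM.main (H : QM κ W) (τ : Ordinal.{u}) {p : Set κ.ord.ToType} (hp : Pos W p) :
    ∃ q ⊆ p, Pos W q ∧ ∃ σ₁ σ₂, Rep W q τ σ₁ ∧ Rep W q σ₁ σ₂ ∧ σ₁.card = σ₂.card := by
  by_cases hτ : τ.card < κ
  · exact ⟨p, le_rfl, hp, τ, τ, H.rep_small hτ p, H.rep_small hτ p, rfl⟩
  push Not at hτ
  obtain ⟨q₁, a1, a2, σ₁, a3⟩ := H.exists_rep τ hp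
  obtain ⟨q, b1, b2, σ₂, b3⟩ := H.exists_rep σ₁ a2
  have a4 := a3.mono b1
  refine ⟨q, b1.trans a1, b2, σ₁, σ₂, a4, b3, ?_⟩
  have hne : ∀ {τ σ : Ordinal.{u}} {e : σ.ToType → κ.ord.ToType → τ.ToType},
      (∀ β γ, β < γ → ∀ᶠ i in W, i ∈ q → e β i < e γ i) →
      ∀ β γ, β ≠ γ → ∀ᶠ i in W, i ∈ q → e β i ≠ e γ i := fun h β γ hβ => by
    rcases hβ.lt_or_gt with h' | h'
    · exact (h β γ h').mono fun i hi hi' => (hi hi').ne
    · exact (h γ β h').mono fun i hi hi' => (hi hi').ne'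
  have hle : ∀ {τ σ : Ordinal.{u}}, Rep W q τ σ → κ ≤ τ.card → τ.card ≤ σ.card := by
    rintro τ σ ⟨e, -, h2⟩ h
    have := H.card_le (q := q) (e := fun (β : τ.ToType) _ => β)
      (fun _ _ h => Eventually.of_forall fun _ _ => h) e fun f => h2 f q le_rfl b2
    simp only [mk_toType, le_max_iff] at this
    exact this.resolve_right (H.unc.trans_le h).not_ge
  have c1 := hτ.trans (hle a4 hτ)
  refine le_antisymm (hle b3 c1) ?_
  obtain ⟨e, e1, e2⟩ := a4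
  obtain ⟨e', e3, -⟩ := b3
  obtain ⟨Θ, t1, t2⟩ := H.cov τ hτ
  have : Infinite σ₁.ToType := infinite_iff.2 (by simpa using H.unc.le.trans c1)
  obtain ⟨F, hF⟩ := H.dense_family (by simpa using hτ) t1 t2 b2 (hne e1) e2
  have := H.card_le (hne e3) F hF
  simpa [max_eq_left (H.unc.le.trans c1), Cardinal.mul_eq_self (H.unc.le.trans c1)] using this

end Pool.Agent.Lib.MP_414261_lc
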