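import Pool.Agent.Lib.MP_414261_lc.Basic

/-! Saturated complete filters on a regular cardinal and the filters they close. -/

namespace Pool.Agent.Lib.MP_414261_lc

open Cardinal Set Filter Order

universe u v w

structure QM (κ : Cardinal.{u}) (W : Filter κ.ord.ToType) : Prop where
  reg : κ.IsRegular
  unc : ℵ₀ < κ
  comp : CardinalInterFilter W κ
  ne : W.NeBot
  ccc : PD W ℵ₀
  tail : ∀ k, ∀ᶠ i in W, k < i

variable {κ : Cardinal.{u}} {W : Filter κ.ord.ToType}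

theorem QM.sigma (H : QM κ W) : CountableInterFilter W :=
  have := H.comp
  CardinalInterFilter.toCountableInterFilter W H.unc

theorem QM.all (H : QM κ W) {ι : Type u} (hι : #ι < κ) {p : κ.ord.ToType → ι → Prop}
    (h : ∀ i, ∀ᶠ ξ in W, p ξ i) : ∀ᶠ ξ in W, ∀ i, p ξ i :=
  have := H.comp
  (eventually_cardinal_forall hι).2 h

theorem QM.ex (H : QM κ W) {ι : Type u} (hι : #ι < κ) {p : κ.ord.ToType → ι → Prop}
    (h : ∃ᶠ ξ in W, ∃ i, p ξ i) : ∃ i, ∃ᶠ ξ in W, p ξ i :=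
  have := H.comp
  freq_exists_of_small hι h

theorem QM.iio (_H : QM κ W) (k : κ.ord.ToType) : #(Iio k) < κ := mk_Iio_ord_toType k

theorem QM.mkK (_H : QM κ W) : #(κ.ord.ToType) = κ := mk_ord_toType κ

theorem countable_pos {X : Type u} {F : Filter X} (h : PD F ℵ₀) {ι : Type v} (G : ι → Set X)
    (hG : ∀ i j, i ≠ j → ∀ᶠ x in F, ¬ (x ∈ G i ∧ x ∈ G j)) :
    {i | ∃ᶠ x in F, x ∈ G i}.Countable := by
  obtain ⟨J, j, h1, h2⟩ := h.idx G
  have : Countable J := mk_le_aleph0_iff.1 h1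
  refine (countable_range j).mono fun i hi => ?_
  obtain ⟨a, ha⟩ := h2 i hi
  by_contra hc
  exact ha (hG i (j a) fun e => hc ⟨a, e.symm⟩)

theorem QM.countable_fib (H : QM κ W) {S : Type v} (f : κ.ord.ToType → S) :
    {s | ∃ᶠ ξ in W, f ξ = s}.Countable :=
  countable_pos H.ccc (fun s => {ξ | f ξ = s})
    (fun _ _ hij => Eventually.of_forall fun _ hx => hij (hx.1.symm.trans hx.2))

theorem QM.ae_fib (H : QM κ W) {S : Type u} (hS : #S < κ) (f : κ.ord.ToType → S) :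
    ∀ᶠ ξ in W, ∃ᶠ η in W, f η = f ξ := by
  by_contra hc
  rw [not_eventually] at hc
  obtain ⟨s, hs⟩ := H.ex hS (p := fun ξ s => f ξ = s ∧ ¬ ∃ᶠ η in W, f η = f ξ)
    (hc.mono fun ξ hξ => ⟨f ξ, rfl, hξ⟩)
  obtain ⟨ξ, h1, h2⟩ := hs.exists
  exact h2 (hs.mono fun η hη => hη.1.trans h1.symm)

/-- `F` is closed under `W`-limits. -/
def WC {K : Type u} (W : Filter K) {X : Type u} (F : Filter X) : Prop :=
  ∀ p : K → X → Prop, (∀ ξ, ∀ᶠ x in F, p ξ x) → ∀ᶠ x in F, ∀ᶠ ξ in W, p ξ x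

theorem WC.ae {K : Type u} {W : Filter K} {X : Type u} {F : Filter X} (h : WC W F)
    {p : K → X → Prop} (hp : ∀ᶠ ξ in W, ∀ᶠ x in F, p ξ x) : ∀ᶠ x in F, ∀ᶠ ξ in W, p ξ x := by
  have := h (fun ξ x => (∀ᶠ y in F, p ξ y) → p ξ x) (fun ξ => by
    by_cases h1 : ∀ᶠ y in F, p ξ y
    · exact h1.mono fun x hx _ => hx
    · exact Eventually.of_forall fun x hx => absurd hx h1)
  exact this.mono fun x hx => (hx.and hp).mono fun ξ hξ => hξ.1 hξ.2

theorem WC.comap_fst {K : Type u} {W : Filter K} {X : Type u} {F : Filter X} (h : WC W F)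
    (T : Type u) {c : Cardinal.{u}} [CardinalInterFilter W c] (hT : #T < c) :
    WC W (comap Prod.fst F : Filter (X × T)) := by
  intro p hp
  simp only [eventually_comap] at hp ⊢
  refine (h _ hp).mono fun x hx a ha => hx.mono fun ξ hξ => hξ a ha

theorem QM.pd_of_wc (H : QM κ W) {X : Type u} (hX : #X < κ) {F : Filter X} (hF : WC W F) :
    ∃ δ < κ, PD F δ := by
  classical
  have := H.ne
  have := H.sigma
  by_contra hc
  push Not at hc
  have h1 : ∀ η : κ.ord.ToType, ∃ a : Iio η → Set X, (∀ α, ∃ᶠ x in F, x ∈ a α) ∧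
      ∀ α α', α ≠ α' → ∀ᶠ x in F, ¬ (x ∈ a α ∧ x ∈ a α') := by
    intro η
    have h2 := mt (pd_of_antichain F #(Iio η)) (hc _ (H.iio η))
    push Not at h2
    obtain ⟨A, hA1, hA2, hA3⟩ := h2
    obtain ⟨e⟩ := Cardinal.le_def _ _ |>.1 hA3.le
    refine ⟨fun α => (e α).1, fun α => hA1 _ (e α).2, fun α α' hne => ?_⟩
    have := hA2 (e α).2 (e α').2 (fun h => hne (e.injective (Subtype.ext h)))
    exact this.mono fun x hx hx' => hx hx'.1 hx'.2
  choose a0 ha1 ha2 using h1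
  let a : κ.ord.ToType → κ.ord.ToType → Set X := fun η α => if h : α < η then a0 η ⟨α, h⟩ else ∅
  have hd : ∀ α α', α ≠ α' → ∀ η, ∀ᶠ x in F, ¬ (x ∈ a η α ∧ x ∈ a η α') := by
    intro α α' hne η
    by_cases h : α < η
    · by_cases h' : α' < η
      · simp only [a, dif_pos h, dif_pos h']
        exact ha2 η _ _ (fun e => hne (congrArg Subtype.val e))
      · simp [a, h']
    · simp [a, h]
  let N : κ.ord.ToType → κ.ord.ToType → X → Prop :=
    fun α α' x => ∀ᶠ η in W, ¬ (x ∈ a η α ∧ x ∈ a η α')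
  have hM : ∀ α, ∀ᶠ x in F, ∀ᶠ α' in W, α ≠ α' → N α α' x := by
    intro α
    refine hF _ fun α' => ?_
    by_cases h : α = α'
    · exact Eventually.of_forall fun x hx => absurd h hx
    · exact (hF _ (hd α α' h)).mono fun x hx _ => hx
  have hz : ∀ α, ∃ x, ∃ᶠ η in W, x ∈ a η α ∧ ∀ᶠ α' in W, α ≠ α' → N α α' x := by
    intro α
    refine H.ex hX (Eventually.frequently ((H.tail α).mono fun η hη => ?_))
    have := ((ha1 η ⟨α, hη⟩).and_eventually (hM α)).exists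
    simpa only [a, dif_pos hη] using this
  choose z hz using hz
  obtain ⟨ζ, hζ⟩ := H.ex hX (p := fun α x => z α = x)
    (Eventually.frequently (Eventually.of_forall fun α => ⟨_, rfl⟩))
  obtain ⟨J, j, hJ, hj⟩ := H.ccc.idx (fun α : {α // z α = ζ} => {η | ζ ∈ a η α.1})
  have : Countable J := mk_le_aleph0_iff.1 hJ
  have h3 : ∀ᶠ α' in W, ∀ b : J, N (j b).1 α' ζ := by
    refine eventually_countable_forall.2 fun b => ?_
    obtain ⟨η, -, hη⟩ := (hz (j b).1).exists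
    rw [(j b).2] at hη
    exact (hη.and (H.tail (j b).1)).mono fun α' h => h.1 h.2.ne
  obtain ⟨α', h4, h5⟩ := (hζ.and_eventually h3).exists
  obtain ⟨b, hb⟩ := hj ⟨α', h4⟩ ((hz α').mono fun η hη => by
    have := hη.1
    rw [h4] at this
    exact this)
  exact hb ((h5 b).mono fun η hη h => hη ⟨h.2, h.1⟩)

theorem QM.small_prod (H : QM κ W) {X T : Type u} (hX : #X < κ) (hT : #T < κ) : #(X × T) < κ := by
  simpa using mul_lt_of_lt H.unc.le hX hT

theorem QM.pd_prod (H : QM κ W) {X : Type u} (hX : #X < κ) {F : Filter X} (hF : WC W F)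
    {T : Type u} (hT : #T < κ) : ∃ δ < κ, PD (comap Prod.fst F : Filter (X × T)) δ :=
  have := H.comp
  H.pd_of_wc (H.small_prod hX hT) (hF.comap_fst T hT)

theorem QM.closed_index (H : QM κ W) {X : Type u} (hX : #X < κ) {F : Filter X}
    [CountableInterFilter F] (hF : WC W F) {θ : Cardinal.{u}} (hθ : θ < κ) :
    ∃ T : Type u, #T < κ ∧ θ ≤ #T ∧ ℵ₀ ≤ #T ∧ PD (comap Prod.fst F : Filter (X × T)) #T := by
  have h1 : ∀ c : Iio κ, ∃ d : Iio κ, PD (comap Prod.fst F : Filter (X × c.1.out)) d.1 := by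
    intro c
    obtain ⟨δ, h1, h2⟩ := H.pd_prod hX hF (T := c.1.out) (by rw [mk_out]; exact c.2)
    exact ⟨⟨δ, h1⟩, h2⟩
  choose D hD using h1
  let t : ℕ → Iio κ := fun n => Nat.rec ⟨max θ ℵ₀, max_lt hθ H.unc⟩ (fun _ c => D c) n
  let T : Type u := Σ n : ULift.{u} ℕ, (t n.down).1.out
  have hT : ∀ n, (t n).1 ≤ #T := fun n => by
    have := mk_le_of_injective (sigma_mk_injective (β := fun n : ULift.{u} ℕ => (t n.down).1.out)
      (i := ⟨n⟩))
    rwa [mk_out] at this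
  have hT0 : ℵ₀ ≤ #T := (le_max_right _ _).trans (hT 0)
  refine ⟨T, ?_, (le_max_left _ _).trans (hT 0), hT0, fun G => ?_⟩
  · rw [mk_sigma]
    exact sum_lt_of_isRegular H.reg (by simpa using H.unc) (fun n => by rw [mk_out]; exact (t n.down).2)
  · have h2 := fun n : ℕ => (hD (t n)).idx
      (fun U : G => {y : X × (t n).1.out | (y.1, (⟨⟨n⟩, y.2⟩ : T)) ∈ U.1})
    choose J j hJ hj using h2
    refine ⟨range fun s : (Σ n : ULift.{u} ℕ, J n.down) => (j s.1.down s.2).1, ?_, ?_, ?_⟩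
    · rintro _ ⟨s, rfl⟩
      exact (j _ _).2
    · refine mk_range_le.trans ?_
      rw [mk_sigma]
      refine (sum_le_sum _ (fun _ => #T) fun n : ULift.{u} ℕ => (hJ n.down).trans (hT (n.down + 1))).trans ?_
      simp [Cardinal.mul_eq_max le_rfl hT0, hT0]
    · intro U hU hUp
      rw [frequently_comap] at hUp
      obtain ⟨n, hn⟩ := freq_exists_of_countable (F := F)
        (p := fun x (n : ℕ) => ∃ s : (t n).1.out, (x, (⟨⟨n⟩, s⟩ : T)) ∈ U)
        (hUp.mono fun x ⟨⟨_, ⟨⟨n⟩, s⟩⟩, rfl, h⟩ => ⟨n, s, h⟩)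
      obtain ⟨b, hb⟩ := hj n ⟨U, hU⟩ (by
        rw [frequently_comap]
        exact hn.mono fun x ⟨s, hs⟩ => ⟨(x, s), rfl, hs⟩)
      refine ⟨_, ⟨⟨⟨n⟩, b⟩, rfl⟩, ?_⟩
      rw [frequently_comap] at hb ⊢
      exact hb.mono fun x ⟨⟨_, s⟩, rfl, h⟩ => ⟨(_, ⟨⟨n⟩, s⟩), rfl, h⟩

end Pool.Agent.Lib.MP_414261_lc
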