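import Pool.Agent.Lib.MP_414261_lc.Eub

/-! The revised power set bound above a cardinal carrying a saturated complete filter. -/

namespace Pool.Agent.Lib.MP_414261_lc

open Cardinal Set Filter Order

universe u v w

variable {κ : Cardinal.{u}} {W : Filter κ.ord.ToType}

def Cover (θ lam : Cardinal.{u}) {X : Type u} (g : X → Ordinal.{u}) : Prop :=
  ∃ (T : Type u) (A : T → Set X), #T ≤ θ ∧ (∀ x, ∃ t, x ∈ A t) ∧ ∀ t, KK lam g (A t)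

def RG (κ : Cardinal.{u}) (ν : Ordinal.{u}) (θ : Cardinal.{u}) : Prop :=
  ∀ X : Type u, #X < κ → ∀ g : X → Ordinal.{u}, (∀ x, κ < (g x).cof) → (∀ x, g x ≤ ν) →
    Cover θ ν.card g

theorem QM.step (H : QM κ W) {X : Type u} (hX : #X < κ) {I : Filter X} [CountableInterFilter I]
    {Θ : Type u} (hΘ : #Θ < κ) (hΘ' : ℵ₀ ≤ #Θ) (hpd : PD (comap Prod.fst I : Filter (X × Θ)) #Θ)
    {A : Type u} (hA : #A < κ) (G : X → A → Ordinal.{u}) (hG : ∀ ζ k, κ < (G ζ k).cof)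
    (g : A → Ordinal.{u}) (hg : ∀ k, 0 < g k) (hs : ∀ k, Scale I (fun ζ => G ζ k) (g k))
    (lam : Cardinal.{u}) (n : X → Cardinal.{u})
    (Z : X × Θ → Set A) (c : X × Θ → Cardinal.{u}) (hZ : ∀ t, KK (c t) (G t.1) (Z t))
    (hc : ∀ t, c t ≤ n t.1) :
    ∃ (Z' : X × Θ → Set A) (c' : X × Θ → Cardinal.{u}) (D : Θ → Set A),
      (∀ t, KK (c' t) (G t.1) (Z' t)) ∧ (∀ t, c' t ≤ n t.1) ∧ (∀ d, KK lam g (D d)) ∧
      (∀ ζ ε k, k ∈ Z (ζ, ε) → (∀ ε', k ∈ Z' (ζ, ε') → c (ζ, ε) ≤ c' (ζ, ε')) →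
        (c (ζ, ε)).IsRegular ∧ κ < c (ζ, ε)) ∧
      ∀ k (e : X → Θ) (Y : Set X) (m : X → Ordinal.{u}), (∃ᶠ ζ in I, ζ ∈ Y) → (∀ ζ, 0 < m ζ) →
        KK lam m Y → (∀ ζ ∈ Y, k ∈ Z (ζ, e ζ) ∧ m ζ = (c (ζ, e ζ)).ord ∧
          ∀ ε', k ∈ Z' (ζ, ε') → c (ζ, e ζ) ≤ c' (ζ, ε')) → ∃ d, k ∈ D d := by
  classical
  let act : X × Θ → Prop := fun t => (c t).IsRegular ∧ κ < c t
  let mm : X × Θ → Ordinal.{u} := fun t => if act t then (c t).ord else 1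
  have hmm : ∀ t, 0 < mm t := fun t => by
    simp only [mm]
    split_ifs with h
    · exact h.1.ord_pos
    · exact zero_lt_one
  have hG0 : ∀ y : X × A, 0 < G y.1 y.2 := fun y => pos_of_cof (hG _ _)
  have hXA := H.small_prod hX hA
  obtain ⟨A₀, a1, a2, a3⟩ := hpd {B | KK lam mm B ∧ ∀ t ∈ B, act t}
  obtain ⟨B, hB, hB'⟩ := exists_cover_fun a2 (fun a : A₀ => a.1) ∅
    (fun B => KK lam mm B ∧ ∀ t ∈ B, act t) (fun a => a1 a.2) ⟨Dom.empty, by simp⟩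
  have h1 : ∀ d, ∃ R, KK lam (fun y : X × A => G y.1 y.2) R ∧ ∀ t ∈ B d,
      ∀ᶠ y in Filter.map (fun k => (t.1, k)) (KL (c t) (G t.1) ⊓ 𝓟 (Z t)), y ∈ R := fun d =>
    r_lemma (fun y => (H.small_prod hX hΘ).trans (hG _ _))
      (bdd_KF H.reg hXA (fun y => hG _ _) _ le_rfl) hmm (fun t ht => by
        have h := (hB d).2 t ht
        simp only [mm, if_pos h]
        exact Scale.map (Prod.mk_right_injective t.1)
          (scale_KL H.reg hA (hG t.1) h.1 (H.unc.trans h.2) (hZ t)) hG0) (hB d).1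
  choose R hR hR' using h1
  have h2 : ∀ d t, {k | k ∈ Z t → act t ∧ (t ∈ B d → (t.1, k) ∈ R d)} ∈ KL (c t) (G t.1) := by
    intro d t
    by_cases h : act t
    · by_cases h' : t ∈ B d
      · have := hR' d t h'
        rw [eventually_map, eventually_inf_principal] at this
        exact this.mono fun k hk hk' => ⟨h, fun _ => hk hk'⟩
      · exact Eventually.of_forall fun k _ => ⟨h, fun h'' => absurd h'' h'⟩
    · have := not_frequently.1 (fun h' => h (proper_regular H.reg hA (hG t.1) (hZ t) h'))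
      exact this.mono fun k hk hk' => absurd hk' hk
  choose s hs1 hs2 using fun d t => exists_seq_of_mem_generate (h2 d t)
  have h3 : ∀ d t j, ∃ (Z' : Set A) (c' : Cardinal.{u}), KK c' (G t.1) Z' ∧ c' ≤ c t ∧
      ∀ k, k ∉ s d t j → k ∈ Z' ∧ c' < c t := by
    intro d t j
    rcases hs1 d t j with h | ⟨c', h, h'⟩
    · exact ⟨∅, 0, Dom.empty, zero_le, fun k hk => absurd (h ▸ mem_univ k) hk⟩
    · exact ⟨_, c', mem_KF.1 h', h.le, fun k hk => ⟨hk, h⟩⟩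
  choose Z' c' b1 b2 b3 using h3
  obtain ⟨π⟩ : Nonempty (Θ ≃ Θ × Θ × ULift.{u} ℕ) := Cardinal.eq.1 (by
    simp [Cardinal.mul_eq_max hΘ' le_rfl, hΘ', Cardinal.mul_eq_self hΘ'])
  have key : ∀ ζ ε k, k ∈ Z (ζ, ε) →
      (∀ ε', k ∈ Z' (π ε').1 (ζ, (π ε').2.1) (π ε').2.2.down →
        c (ζ, ε) ≤ c' (π ε').1 (ζ, (π ε').2.1) (π ε').2.2.down) →
      ∀ d, act (ζ, ε) ∧ ((ζ, ε) ∈ B d → (ζ, k) ∈ R d) := by
    intro ζ ε k hk hmin d
    refine hs2 d (ζ, ε) k (fun j => ?_) hk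
    by_contra hj
    have := hmin (π.symm (d, ε, ⟨j⟩))
    simp only [Equiv.apply_symm_apply] at this
    exact (this (b3 d _ j k hj).1).not_gt (b3 d _ j k hj).2
  have : Nonempty Θ := (infinite_iff.2 hΘ').nonempty
  refine ⟨fun t => Z' (π t.2).1 (t.1, (π t.2).2.1) (π t.2).2.2.down,
    fun t => c' (π t.2).1 (t.1, (π t.2).2.1) (π t.2).2.2.down,
    fun d => {k ∈ Set.univ | ∃ᶠ y in Filter.map (fun ζ => (ζ, k)) I, y ∈ R d},
    fun t => b1 _ _ _, fun t => (b2 _ _ _).trans (hc _), fun d => ?_,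
    fun ζ ε k hk hmin => (key ζ ε k hk hmin (Classical.arbitrary _)).1, ?_⟩
  · exact e_lemma (fun y => hA.trans (hG _ _)) hg
      (fun k _ => Scale.map (Prod.mk_left_injective k) (hs k) hG0) (hR d)
  · intro k e Y m hY hm hmY hmin
    have hact : ∀ ζ ∈ Y, ∀ d, act (ζ, e ζ) ∧ ((ζ, e ζ) ∈ B d → (ζ, k) ∈ R d) :=
      fun ζ hζ => key ζ (e ζ) k (hmin ζ hζ).1 (hmin ζ hζ).2.2
    obtain ⟨a, ha, ha'⟩ := a3 ((fun ζ => (ζ, e ζ)) '' Y)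
      ⟨Dom.image hmY _ (fun _ _ _ _ h => congrArg Prod.fst h) (fun ζ hζ => by
          simp only [mm, if_pos (hact ζ hζ (Classical.arbitrary _)).1]
          exact (hmin ζ hζ).2.1.symm) hmm hm, by
        rintro _ ⟨ζ, hζ, rfl⟩
        exact (hact ζ hζ (Classical.arbitrary _)).1⟩
      (by
        rw [frequently_comap]
        exact hY.mono fun ζ hζ => ⟨(ζ, e ζ), rfl, ζ, hζ, rfl⟩)
    obtain ⟨d, hd⟩ := hB' ⟨a, ha⟩
    refine ⟨d, trivial, ?_⟩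
    rw [frequently_map]
    rw [frequently_comap] at ha'
    refine ha'.mono ?_
    rintro _ ⟨_, rfl, ⟨ζ, hζ, rfl⟩, h⟩
    exact (hact ζ hζ d).2 (hd ▸ h)

theorem Bdd.ord {X : Type u} {F : Filter X} {g : X → Ordinal.{u}} {μ : Cardinal.{u}}
    (h : Bdd F g μ) {β : Ordinal.{u}} (hβ : β.card ≤ μ) (φ : (γ : Ordinal.{u}) → γ < β → X → Ordinal.{u})
    (hφ : ∀ γ hγ x, φ γ hγ x < g x) :
    ∃ b : X → Ordinal.{u}, (∀ x, b x < g x) ∧ ∀ γ hγ, ∀ᶠ x in F, φ γ hγ x < b x := by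
  obtain ⟨b, h1, h2⟩ := h β.ToType (by simpa using hβ)
    (fun i => φ (Ordinal.ToType.mk.symm i).1 (Ordinal.ToType.mk.symm i).2) (fun i => hφ _ _)
  refine ⟨b, h1, fun γ hγ => ?_⟩
  have := h2 (Ordinal.ToType.mk ⟨γ, hγ⟩)
  simpa only [OrderIso.symm_apply_apply] using this

theorem succ_ord_le {c : Cardinal.{u}} {o : Ordinal.{u}} (h : c < o.cof) : (succ c).ord ≤ o :=
  ord_le.2 (succ_le_of_lt (h.trans_le (Ordinal.cof_le_card o)))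

theorem KK_succ (hκ : ℵ₀ ≤ κ) {X : Type u} (hX : #X < κ) {g : X → Ordinal.{u}}
    (hg : ∀ x, κ < (g x).cof) : KK (succ κ) g {x | g x ≤ (succ κ).ord} :=
  (KK.const (isRegular_succ hκ) (hX.trans (lt_succ κ)) (fun x => pos_of_cof (hg x))).mono le_rfl
    fun x hx => by
      have : g x = (succ κ).ord := le_antisymm hx (succ_ord_le (hg x))
      rw [mem_setOf_eq, this, (isRegular_succ hκ).cof_ord]

theorem QM.rg (H : QM κ W) (ν : Ordinal.{u}) : ∃ θ < κ, RG κ ν θ := by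
  induction ν using WellFoundedLT.induction with
  | ind ν ih =>
  by_cases ha : ∀ X : Type u, #X < κ → ∀ g : X → Ordinal.{u}, (∀ x, κ < (g x).cof) →
      (∀ x, g x ≤ ν) → KK ν.card g Set.univ
  · exact ⟨1, one_lt_aleph0.trans H.unc, fun X hX g h1 h2 =>
      ⟨PUnit, fun _ => Set.univ, by simp, fun _ => ⟨PUnit.unit, trivial⟩, fun _ => ha X hX g h1 h2⟩⟩
  push Not at ha
  obtain ⟨X, hX, g₀, hg1, hg2, hg3⟩ := ha
  obtain ⟨x₀⟩ : Nonempty X := by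
    by_contra hc
    rw [not_nonempty_iff] at hc
    exact hg3 (KK.mono Dom.empty le_rfl fun x => isEmptyElim x)
  have hl : succ κ ≤ ν.card := ord_le.1 ((succ_ord_le (hg1 x₀)).trans (hg2 x₀))
  have hν : (succ κ).ord < ν := by
    by_contra hc
    exact hg3 ((KK_succ H.unc.le hX hg1).mono hl fun x _ => (hg2 x).trans (not_lt.1 hc))
  have hI : WC W (KF ν.card g₀) := H.wc_KF hX hg1 _
  have : (KF ν.card g₀).NeBot := ⟨fun h => hg3 (by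
    have : (∅ : Set X) ∈ KF ν.card g₀ := by rw [h]; exact mem_bot
    simpa using mem_KF.1 this)⟩
  generalize hIdef : KF ν.card g₀ = I at hI this
  have : CountableInterFilter I := hIdef ▸ inferInstance
  obtain ⟨h, ⟨h1, h2, h3⟩, hmin⟩ := exists_min_ae I
    (fun h => (∀ ζ, κ < (h ζ).cof) ∧ (∀ ζ, h ζ ≤ ν) ∧ I ≤ KF ν.card h) ⟨g₀, hg1, hg2, hIdef.ge⟩
  have hb : Bdd I h ν.card := (bdd_KF H.reg hX h1 _ (le_max_left _ _)).filter_mono h3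
  obtain ⟨f, hf⟩ := rec_exists (α := Ordinal.{u}) (β := {f : X → Ordinal.{u} // ∀ x, f x < h x})
    (fun β prev new => β ≤ ν → ∀ γ (hγ : γ < β), ∀ᶠ x in I, (prev γ hγ).1 x < new.1 x)
    (fun β prev => by
      by_cases hβ : β ≤ ν
      · obtain ⟨b, b1, b2⟩ := hb.ord (Ordinal.card_le_card hβ) (fun γ hγ => (prev γ hγ).1)
          (fun γ hγ => (prev γ hγ).2)
        exact ⟨⟨b, b1⟩, fun _ => b2⟩
      · exact ⟨⟨fun _ => 0, fun x => pos_of_cof (h1 x)⟩, fun h => absurd h hβ⟩)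
  let ν' : X → Ordinal.{u} := fun ζ => max ((f ν).1 ζ) (succ κ).ord
  have hν' : ∀ ζ, ν' ζ < ν := fun ζ => max_lt (((f ν).2 ζ).trans_le (h2 ζ)) hν
  have hν'' : ∀ᶠ ζ in I, ν' ζ < h ζ :=
    ((((KK_succ H.unc.le hX h1).mono hl le_rfl).ev).filter_mono h3).mono fun ζ hζ =>
      max_lt ((f ν).2 ζ) (not_le.1 hζ)
  choose θ hθ hθ' using fun ζ => ih (ν' ζ) (hν' ζ)
  obtain ⟨Θ, t1, t2, t3, t4⟩ := H.closed_index hX hI
    (Cardinal.iSup_lt_of_lt_cof_ord (by rwa [H.reg.cof_ord]) hθ)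
  refine ⟨#Θ, t1, fun A hA g hg hg' => ?_⟩
  have heub : ∀ k, ∃ G : X → Ordinal.{u}, (∀ ζ, G ζ ≤ ν' ζ) ∧ (∀ ζ, κ < (G ζ).cof) ∧
      Scale I G (g k) := fun k =>
    H.exists_eub hX hI (hg k) (f := fun β x => min ((f β).1 x) ((f ν).1 x))
      (fun β β' b1 b2 => by
        have b3 : β' < ν := b2.trans_le (hg' k)
        refine ((hf β' b3.le β b1).and (hf ν le_rfl β' b3)).mono fun x hx => ?_
        rw [min_eq_left hx.2.le, min_eq_left (hx.1.trans hx.2).le]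
        exact hx.1) (fun β x => min_le_right _ _)
  choose G G1 G2 G3 using heub
  have h0 : ∀ ζ, ∃ Z : Θ → Set A, (∀ ε, KK (ν' ζ).card (fun k => G k ζ) (Z ε)) ∧
      ∀ k, ∃ ε, k ∈ Z ε := by
    intro ζ
    obtain ⟨T, B, b1, b2, b3⟩ := hθ' ζ A hA (fun k => G k ζ) (fun k => G2 k ζ) (fun k => G1 k ζ)
    obtain ⟨Z, z1, z2⟩ := exists_cover_fun
      (b1.trans ((le_ciSup bddAbove_of_small ζ).trans t2)) B ∅ _ b3 Dom.empty
    refine ⟨Z, z1, fun k => ?_⟩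
    obtain ⟨t, ht⟩ := b2 k
    obtain ⟨ε, hε⟩ := z2 t
    exact ⟨ε, hε ▸ ht⟩
  choose Z₀ z1 z2 using h0
  have hst := fun S : {S : (X × Θ → Set A) × (X × Θ → Cardinal.{u}) //
      (∀ t, KK (S.2 t) (fun k => G k t.1) (S.1 t)) ∧ ∀ t, S.2 t ≤ (ν' t.1).card} =>
    H.step hX t1 t3 t4 hA (fun ζ k => G k ζ) (fun ζ k => G2 k ζ) g (fun k => pos_of_cof (hg k)) G3
      ν.card (fun ζ => (ν' ζ).card) S.1.1 S.1.2 S.2.1 S.2.2
  choose Z' c' D s1 s2 s3 s4 s5 using hst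
  let S : ℕ → {S : (X × Θ → Set A) × (X × Θ → Cardinal.{u}) //
      (∀ t, KK (S.2 t) (fun k => G k t.1) (S.1 t)) ∧ ∀ t, S.2 t ≤ (ν' t.1).card} := fun n =>
    Nat.rec ⟨(fun t => Z₀ t.1 t.2, fun t => (ν' t.1).card), fun t => z1 t.1 t.2, fun _ => le_rfl⟩
      (fun _ S => ⟨(Z' S, c' S), s1 S, s2 S⟩) n
  refine ⟨ULift.{u} ℕ × Θ, fun p => D (S p.1.down) p.2, by simp [Cardinal.mul_eq_max le_rfl t3, t3],
    fun k => ?_, fun p => s3 _ _⟩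
  have hm : ∀ ζ, ∃ n ε, k ∈ (S n).1.1 (ζ, ε) ∧
      ∀ n' ε', k ∈ (S n').1.1 (ζ, ε') → (S n).1.2 (ζ, ε) ≤ (S n').1.2 (ζ, ε') := by
    intro ζ
    obtain ⟨ε₀, hε₀⟩ := z2 ζ k
    obtain ⟨_, ⟨n, ε, b1, rfl⟩, b2⟩ := WellFounded.has_min (wellFounded_lt (α := Cardinal.{u}))
      {d | ∃ n ε, k ∈ (S n).1.1 (ζ, ε) ∧ (S n).1.2 (ζ, ε) = d} ⟨_, 0, ε₀, hε₀, rfl⟩
    exact ⟨n, ε, b1, fun n' ε' h => not_lt.1 (b2 _ ⟨n', ε', h, rfl⟩)⟩
  choose n e m1 m2 using hm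
  have hact := fun ζ => s4 (S (n ζ)) ζ (e ζ) k (m1 ζ) (m2 ζ (n ζ + 1))
  have hle : ∀ ζ, ((S (n ζ)).1.2 (ζ, e ζ)).ord ≤ ν' ζ := fun ζ =>
    ord_le.2 ((S (n ζ)).2.2 (ζ, e ζ))
  have hnot : ¬ I ≤ KF ν.card (fun ζ => ((S (n ζ)).1.2 (ζ, e ζ)).ord) := fun hh =>
    hmin _ ⟨fun ζ => by rw [(hact ζ).1.cof_ord]; exact (hact ζ).2,
      fun ζ => (hle ζ).trans (hν' ζ).le, hh⟩ (hν''.mono fun ζ hζ => (hle ζ).trans_lt hζ)
  rw [Filter.le_def] at hnot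
  push Not at hnot
  obtain ⟨B, b1, b2⟩ := hnot
  obtain ⟨j, hj⟩ := freq_exists_of_countable (F := I) (p := fun ζ j => ζ ∉ B ∧ n ζ = j)
    ((not_eventually.1 b2).mono fun ζ hζ => ⟨_, hζ, rfl⟩)
  obtain ⟨d, hd⟩ := s5 (S j) k e _ _ hj (fun ζ => (hact ζ).1.ord_pos)
    ((mem_KF.1 b1).mono le_rfl fun ζ hζ => hζ.1) (by
      rintro ζ ⟨-, rfl⟩
      exact ⟨m1 ζ, rfl, m2 ζ (n ζ + 1)⟩)
  exact ⟨(⟨j⟩, d), hd⟩

end Pool.Agent.Lib.MP_414261_lc
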