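import Pool.Agent.Lib.MP_414261_lc.Dom
import Pool.Agent.Lib.MP_414261_lc.QM

/-! Scales, transfer of small dominating families along scales, and closure of the ideals. -/

namespace Pool.Agent.Lib.MP_414261_lc

open Cardinal Set Filter Order

universe u v w

variable {X : Type u} {g : X → Ordinal.{u}} {lam : Cardinal.{u}}

/-- A sequence of length `m` below `g` that eventually dominates each function below `g`. -/
def Scale {X : Type u} (F : Filter X) (g : X → Ordinal.{u}) (m : Ordinal.{u}) : Prop :=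
  ∃ f : Ordinal.{u} → X → Ordinal.{u}, (∀ β x, f β x < g x) ∧
    ∀ φ : X → Ordinal.{u}, (∀ x, φ x < g x) →
      ∃ β₀ < m, ∀ β, β₀ ≤ β → β < m → ∀ᶠ x in F, φ x < f β x

theorem Scale.map {Y : Type u} {F : Filter Y} {e : Y → X} (he : Function.Injective e)
    {m : Ordinal.{u}} (h : Scale F (fun y => g (e y)) m) (h0 : ∀ x, 0 < g x) :
    Scale (Filter.map e F) g m := by
  classical
  obtain ⟨f, hf, hf'⟩ := h
  refine ⟨fun β => Function.extend e (f β) (fun _ => 0), fun β x => ?_, fun φ hφ => ?_⟩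
  · dsimp only
    by_cases hx : ∃ y, e y = x
    · obtain ⟨y, rfl⟩ := hx
      rw [he.extend_apply]
      exact hf β y
    · rw [Function.extend_apply' _ _ _ hx]
      exact h0 x
  · obtain ⟨β₀, h1, h2⟩ := hf' (fun y => φ (e y)) (fun y => hφ _)
    refine ⟨β₀, h1, fun β h3 h4 => ?_⟩
    rw [eventually_map]
    exact (h2 β h3 h4).mono fun y hy => by
      dsimp only
      rwa [he.extend_apply]

theorem bdd_KL {χ : Cardinal.{u}} (hχ : χ.IsRegular) (hX : #X < χ) (hg : ∀ x, χ < (g x).cof)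
    {c : Cardinal.{u}} : ∀ ν < c, Bdd (KL c g) g ν := fun ν hν =>
  (bdd_KF (lam := ν) hχ hX hg ν (le_max_left _ _)).filter_mono (KL_le_KF hν)

theorem scale_KL {χ : Cardinal.{u}} (hχ : χ.IsRegular) (hX : #X < χ) (hg : ∀ x, χ < (g x).cof)
    {c : Cardinal.{u}} (hc : c.IsRegular) (hc' : ℵ₀ < c) {A : Set X} (hA : KK c g A) :
    Scale (KL c g ⊓ 𝓟 A) g c.ord := by
  classical
  obtain ⟨ι, φ, hι, hφ, hd⟩ := hA
  rw [max_eq_left hc'.le] at hι
  obtain ⟨f, hf, hf'⟩ := tower hc'.le (bdd_KL hχ hX hg) hι φ hφ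
  choose a ha using hf'
  refine ⟨fun β => if h : β < c.ord then f (Ordinal.ToType.mk ⟨β, h⟩) else 0, fun β x => ?_,
    fun ψ hψ => ?_⟩
  · dsimp only
    split_ifs
    · exact hf _ _
    · exact pos_of_cof (hg x)
  · obtain ⟨J, j, hJ, hj⟩ := hd ψ hψ
    have : Countable J := mk_le_aleph0_iff.1 hJ
    obtain ⟨b, hb⟩ := bdd_toType hc (hJ.trans_lt hc') (fun t => a (j t))
    refine ⟨(Ordinal.ToType.mk.symm b : Iio c.ord), (Ordinal.ToType.mk.symm b).2,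
      fun β h1 h2 => ?_⟩
    have h3 : b ≤ Ordinal.ToType.mk ⟨β, h2⟩ := by
      have := Ordinal.ToType.mk.monotone (show Ordinal.ToType.mk.symm b ≤ ⟨β, h2⟩ from h1)
      rwa [OrderIso.apply_symm_apply] at this
    rw [eventually_inf_principal]
    refine (eventually_countable_forall.2 fun t => ha (j t) _ ((hb t).le.trans h3)).mono
      fun x hx hxA => ?_
    obtain ⟨t, ht⟩ := hj x hxA
    simp only [dif_pos h2]
    exact ht.trans_lt (hx t)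

theorem KL_le_KF_of_singular {χ : Cardinal.{u}} (hχ : χ.IsRegular) (hX : #X < χ)
    (hg : ∀ x, χ < (g x).cof) {c : Cardinal.{u}} (hc : c.IsSingular) : KL c g ≤ KF c g := by
  intro B hB
  obtain ⟨ι, φ, hι, hφ, hd⟩ := mem_KF.1 hB
  rw [max_eq_left hc.aleph0_le] at hι
  obtain ⟨b, hb, hb'⟩ := bdd_of_singular hc (bdd_KL hχ hX hg) ι hι φ hφ
  obtain ⟨J, j, hJ, hj⟩ := hd b hb
  have : Countable J := mk_le_aleph0_iff.1 hJ
  refine mem_of_superset (eventually_countable_forall.2 fun t => hb' (j t)) fun x hx => ?_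
  by_contra hxB
  obtain ⟨t, ht⟩ := hj x hxB
  exact (hx t).not_ge ht

theorem choose_scales {T : Type u} {B : Set T} {F : T → Filter X} {m : T → Ordinal.{u}}
    (h0 : ∀ x, 0 < g x) (hm : ∀ t, 0 < m t) (hs : ∀ t ∈ B, Scale (F t) g (m t)) :
    ∃ (f : T → Ordinal.{u} → X → Ordinal.{u}), (∀ t β x, f t β x < g x) ∧
      ∀ φ : X → Ordinal.{u}, (∀ x, φ x < g x) → ∃ s : T → Ordinal.{u}, (∀ t, s t < m t) ∧
        ∀ t ∈ B, ∀ β, s t ≤ β → β < m t → ∀ᶠ x in F t, φ x < f t β x := by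
  have h1 : ∀ t, ∃ f : Ordinal.{u} → X → Ordinal.{u}, (∀ β x, f β x < g x) ∧
      ∀ φ : X → Ordinal.{u}, (∀ x, φ x < g x) →
        ∃ β₀ < m t, t ∈ B → ∀ β, β₀ ≤ β → β < m t → ∀ᶠ x in F t, φ x < f β x := by
    intro t
    by_cases ht : t ∈ B
    · obtain ⟨f, hf, hf'⟩ := hs t ht
      refine ⟨f, hf, fun φ hφ => ?_⟩
      obtain ⟨β₀, h1, h2⟩ := hf' φ hφ
      exact ⟨β₀, h1, fun _ => h2⟩
    · exact ⟨fun _ _ => 0, fun _ => h0, fun _ _ => ⟨0, hm t, fun h => absurd h ht⟩⟩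
  choose f hf hf' using h1
  refine ⟨f, hf, fun φ hφ => ?_⟩
  choose s hs hs' using fun t => hf' t φ hφ
  exact ⟨s, hs, hs'⟩

theorem r_lemma {T : Type u} (hT : ∀ x, #T < (g x).cof) (hD : Bdd (KF lam g) g (max lam ℵ₀))
    {B : Set T} {F : T → Filter X} {m : T → Ordinal.{u}} (hm : ∀ t, 0 < m t)
    (hs : ∀ t ∈ B, Scale (F t) g (m t)) (hB : KK lam m B) :
    ∃ R, KK lam g R ∧ ∀ t ∈ B, ∀ᶠ x in F t, x ∈ R := by
  obtain ⟨f, hf, hf'⟩ := choose_scales (fun x => pos_of_cof (hT x)) hm hs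
  obtain ⟨ι, τ, hι, hτ, hd⟩ := hB
  obtain ⟨b, hb, hb'⟩ := hD ι hι (fun i x => ⨆ t, f t (τ i t) x)
    (fun i x => Ordinal.iSup_lt_of_lt_cof (hT x) fun t => hf _ _ _)
  obtain ⟨s, hs1, hs2⟩ := hf' b hb
  obtain ⟨J, j, hJ, hj⟩ := hd s hs1
  have : Countable J := mk_le_aleph0_iff.1 hJ
  refine ⟨_, ev_KF.1 (eventually_countable_forall.2 fun a => hb' (j a)), fun t ht => ?_⟩
  obtain ⟨a, ha⟩ := hj t ht
  refine (hs2 t ht _ ha (hτ _ _)).mono fun x hx h => ?_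
  exact (hx.trans_le (Ordinal.le_iSup (fun t => f t (τ (j a) t) x) t)).not_gt (h a)

theorem e_lemma {T : Type u} (hT : ∀ x, #T < (g x).cof)
    {B : Set T} {F : T → Filter X} [∀ t, CountableInterFilter (F t)] {m : T → Ordinal.{u}}
    (hm : ∀ t, 0 < m t) (hs : ∀ t ∈ B, Scale (F t) g (m t)) {R : Set X} (hR : KK lam g R) :
    KK lam m {t ∈ B | ∃ᶠ x in F t, x ∈ R} := by
  obtain ⟨f, hf, hf'⟩ := choose_scales (fun x => pos_of_cof (hT x)) hm hs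
  obtain ⟨ι, φ, hι, hφ, hd⟩ := hR
  choose τ hτ hτ' using fun i => hf' (φ i) (hφ i)
  refine ⟨ι, τ, hι, hτ, fun s hs1 => ?_⟩
  obtain ⟨J, j, hJ, hj⟩ := hd (fun x => ⨆ t, f t (s t) x)
    (fun x => Ordinal.iSup_lt_of_lt_cof (hT x) fun t => hf _ _ _)
  have : Countable J := mk_le_aleph0_iff.1 hJ
  refine ⟨J, j, hJ, fun t ht => ?_⟩
  obtain ⟨a, ha⟩ := freq_exists_of_countable (ht.2.mono hj)
  refine ⟨a, ?_⟩
  by_contra hc
  refine ha ((hτ' (j a) t ht.1 _ (not_le.1 hc).le (hs1 t)).mono fun x hx h => ?_)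
  exact (hx.trans_le (Ordinal.le_iSup (fun t => f t (s t) x) t)).not_ge h

variable {κ : Cardinal.{u}} {W : Filter κ.ord.ToType}

theorem proper_regular (hκ : κ.IsRegular) (hX : #X < κ) (hg : ∀ x, κ < (g x).cof)
    {c : Cardinal.{u}} {Z : Set X} (h1 : KK c g Z) (h2 : ∃ᶠ x in KL c g, x ∈ Z) :
    c.IsRegular ∧ κ < c := by
  have h3 : κ < c := by
    by_contra hc
    rw [h1.eq_empty (fun x => (max_le (not_lt.1 hc) hκ.aleph0_le).trans_lt (hg x))] at h2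
    simp at h2
  refine ⟨(isRegular_or_isSingular (hκ.aleph0_le.trans h3.le)).resolve_right fun hs => ?_, h3⟩
  exact h2 (h1.ev.filter_mono (KL_le_KF_of_singular hκ hX hg hs))

theorem QM.no_long_seq (H : QM κ W) (hX : #X < κ) (hg : ∀ x, κ < (g x).cof)
    {Y : Set κ.ord.ToType} (hY : ∃ᶠ ξ in W, ξ ∈ Y) (Z : κ.ord.ToType → Set X)
    (μ : κ.ord.ToType → Cardinal.{u}) (h1 : ∀ ξ ∈ Y, KK (μ ξ) g (Z ξ))
    (h2 : ∀ ξ ∈ Y, ∃ᶠ x in KL (μ ξ) g, x ∈ Z ξ) (h3 : ∀ ξ ∈ Y, WC W (KL (μ ξ) g))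
    (h4 : ∀ η ∈ Y, ∀ᶠ ξ in W, ξ ∈ Y → μ η < μ ξ) : False := by
  classical
  have hreg := fun ξ hξ => proper_regular H.reg hX hg (h1 ξ hξ) (h2 ξ hξ)
  let dd : κ.ord.ToType → κ.ord.ToType → Prop :=
    fun η ξ => ∃ᶠ x in KL (μ η) g ⊓ 𝓟 (Z η), x ∈ Z ξ
  have h5 : ∀ ξ, ∃ R, ξ ∈ Y → KK (μ ξ) g R ∧
      ∀ η < ξ, η ∈ Y → dd η ξ → ∀ᶠ x in KL (μ η) g ⊓ 𝓟 (Z η), x ∈ R := by
    intro ξ
    by_cases hξ : ξ ∈ Y
    swap
    · exact ⟨∅, fun h => absurd h hξ⟩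
    have hT : ∀ x, #(Iio ξ) < (g x).cof := fun x => (H.iio ξ).trans (hg x)
    have hm : ∀ η : Iio ξ, 0 < if η.1 ∈ Y then (μ η.1).ord else 1 := fun η => by
      split_ifs with h
      · exact (hreg _ h).1.ord_pos
      · exact zero_lt_one
    have hs : ∀ η ∈ {η : Iio ξ | η.1 ∈ Y}, Scale (KL (μ η.1) g ⊓ 𝓟 (Z η.1)) g
        (if η.1 ∈ Y then (μ η.1).ord else 1) := fun η hη => by
      rw [if_pos (show η.1 ∈ Y from hη)]
      exact scale_KL H.reg hX hg (hreg _ hη).1 (H.unc.trans (hreg _ hη).2) (h1 _ hη)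
    obtain ⟨R, hR, hR'⟩ := r_lemma hT (bdd_KF H.reg hX hg _ le_rfl) hm (fun η hη => hs η hη.1)
      (e_lemma hT hm hs (h1 ξ hξ))
    exact ⟨R, fun _ => ⟨hR, fun η h h' h'' => hR' ⟨η, h⟩ ⟨h', h''⟩⟩⟩
  choose R hR using h5
  let p : κ.ord.ToType → κ.ord.ToType → X → Prop := fun η ξ x =>
    ξ ∈ Y → η < ξ → x ∈ Z η → (¬ dd η ξ → x ∉ Z ξ) ∧ (dd η ξ → x ∈ R ξ)
  have h6 : ∀ η ∈ Y, ∃ᶠ x in KL (μ η) g, x ∈ Z η ∧ ∀ᶠ ξ in W, p η ξ x := by
    intro η hη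
    refine (h2 η hη).and_eventually (h3 η hη _ fun ξ => ?_)
    by_cases hξ : ξ ∈ Y ∧ η < ξ
    swap
    · exact Eventually.of_forall fun x a b => absurd ⟨a, b⟩ hξ
    by_cases hd : dd η ξ
    · have := (hR ξ hξ.1).2 η hξ.2 hη hd
      rw [eventually_inf_principal] at this
      exact this.mono fun x hx _ _ hx' => ⟨fun h => absurd hd h, fun _ => hx hx'⟩
    · have := not_frequently.1 hd
      rw [eventually_inf_principal] at this
      exact this.mono fun x hx _ _ hx' => ⟨fun _ => hx hx', fun h => absurd h hd⟩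
  obtain ⟨x₀, hx₀⟩ := H.ex hX (p := fun η x => η ∈ Y ∧ x ∈ Z η ∧ ∀ᶠ ξ in W, p η ξ x)
    (hY.mono fun η hη => by
      obtain ⟨x, hx⟩ := (h6 η hη).exists
      exact ⟨x, hη, hx⟩)
  have h7 : ∀ᶠ ξ in W, ∀ x, (∃ η, (η ∈ Y ∧ x₀ ∈ Z η ∧ ∀ᶠ ξ in W, p η ξ x₀) ∧
      x ∈ Z η ∧ ∀ᶠ ξ in W, p η ξ x) → ξ ∈ Y → x₀ ∈ Z ξ → x ∈ R ξ := by
    refine H.all hX fun x => ?_
    by_cases hx : ∃ η, (η ∈ Y ∧ x₀ ∈ Z η ∧ ∀ᶠ ξ in W, p η ξ x₀) ∧ x ∈ Z η ∧ ∀ᶠ ξ in W, p η ξ x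
    swap
    · exact Eventually.of_forall fun ξ h => absurd h hx
    obtain ⟨η, ⟨-, a2, a3⟩, a4, a5⟩ := hx
    refine (a3.and (a5.and (H.tail η))).mono fun ξ hξ _ b1 b2 => ?_
    refine (hξ.2.1 b1 hξ.2.2 a4).2 ?_
    by_contra hd
    exact (hξ.1 b1 hξ.2.2 a2).1 hd b2
  obtain ⟨ξ, ⟨a1, a2, -⟩, a4⟩ := (hx₀.and_eventually h7).exists
  obtain ⟨η, b1, b2⟩ := (hx₀.and_eventually (h4 ξ a1)).exists
  refine h6 η b1.1 (((hR ξ a1).1.ev.filter_mono (KL_le_KF (b2 b1.1))).mono fun x hx h => ?_)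
  exact hx (a4 x ⟨η, b1, h⟩ a1 a2)

theorem generate_proper (c : Cardinal.{u}) :
    countableGenerate {B | ∃ μ < c, B ∈ KF μ g ∧ B ∉ KL μ g} ≤ KL c g := by
  induction c using WellFoundedLT.induction with
  | ind c ih =>
  refine le_countableGenerate_iff_of_countableInterFilter.2 ?_
  rintro B ⟨μ, hμ, hB⟩
  by_cases h : B ∈ KL μ g
  · have h1 := ih μ hμ h
    refine le_countableGenerate_iff_of_countableInterFilter.2 ?_ h1
    rintro B' ⟨μ', h2, h3⟩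
    exact CountableGenerateSets.basic ⟨μ', h2.trans hμ, h3⟩
  · exact CountableGenerateSets.basic ⟨μ, hμ, hB, h⟩

theorem QM.wc_KL (H : QM κ W) (hX : #X < κ) (hg : ∀ x, κ < (g x).cof) (c : Cardinal.{u})
    (ih : ∀ μ < c, WC W (KL μ g) ∧ WC W (KF μ g)) : WC W (KL c g) := by
  have := H.sigma
  intro p hp
  choose s hs hs' using fun ξ => exists_seq_of_mem_generate (generate_proper c (hp ξ))
  suffices h : ∀ n, ∀ᶠ x in KL c g, ∀ᶠ ξ in W, x ∈ s ξ n from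
    (eventually_countable_forall.2 h).mono fun x hx =>
      (eventually_countable_forall.2 hx).mono fun ξ hξ => hs' ξ x hξ
  intro n
  have h1 : ∀ ξ, ∃ μ, s ξ n ≠ Set.univ → μ < c ∧ s ξ n ∈ KF μ g ∧ s ξ n ∉ KL μ g := fun ξ => by
    rcases hs ξ n with h | ⟨μ, h⟩
    · exact ⟨0, fun h' => absurd h h'⟩
    · exact ⟨μ, fun _ => h⟩
  choose μ hμ using h1
  have h2 : ∀ᶠ ξ in W, s ξ n ≠ Set.univ → ∃ᶠ η in W, μ η = μ ξ := by
    by_contra hc
    have h3 : ∃ d, ∃ᶠ ξ in W, (s ξ n ≠ Set.univ ∧ ¬ ∃ᶠ η in W, μ η = μ ξ) ∧ μ ξ < d :=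
      ⟨c, (not_eventually.1 hc).mono fun ξ hξ => by
        rw [Classical.not_imp] at hξ
        exact ⟨hξ, (hμ ξ hξ.1).1⟩⟩
    obtain ⟨d, hd, hd'⟩ := WellFounded.has_min (wellFounded_lt (α := Cardinal.{u})) _ h3
    refine H.no_long_seq hX hg hd (fun ξ => (s ξ n)ᶜ) μ
      (fun ξ hξ => mem_KF.1 (hμ ξ hξ.1.1).2.1) (fun ξ hξ => ?_)
      (fun ξ hξ => (ih _ (hμ ξ hξ.1.1).1).1) (fun η hη => ?_)
    · intro h
      exact (hμ ξ hξ.1.1).2.2 (by simpa using h)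
    · have a1 := not_frequently.1 (fun h => hd' (μ η) h hη.2)
      have a2 := not_frequently.1 hη.1.2
      refine (a1.and a2).mono fun ξ hξ h => ?_
      exact lt_of_le_of_ne (not_lt.1 fun h' => hξ.1 ⟨h.1, h'⟩) (Ne.symm hξ.2)
  have h3 := H.countable_fib μ
  have h4 : ∀ ν ∈ {ν | ∃ᶠ ξ in W, μ ξ = ν}, ∀ᶠ x in KL c g, ∀ᶠ ξ in W,
      s ξ n ≠ Set.univ → μ ξ = ν → x ∈ s ξ n := by
    intro ν _
    by_cases hν : ν < c
    · refine ((ih ν hν).2 _ fun ξ => ?_).filter_mono (KL_le_KF hν)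
      by_cases h : s ξ n ≠ Set.univ ∧ μ ξ = ν
      · have := (hμ ξ h.1).2.1
        rw [h.2] at this
        exact mem_of_superset this fun x hx _ _ => hx
      · exact Eventually.of_forall fun x a b => absurd ⟨a, b⟩ h
    · exact Eventually.of_forall fun x => Eventually.of_forall fun ξ a b =>
        absurd (b ▸ (hμ ξ a).1) hν
  refine ((eventually_countable_ball h3).2 h4).mono fun x hx => ?_
  refine (((eventually_countable_ball h3).2 hx).and h2).mono fun ξ hξ => ?_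
  by_cases h : s ξ n = Set.univ
  · rw [h]
    trivial
  · exact hξ.1 _ (hξ.2 h) h rfl

theorem QM.wc_KF_of (H : QM κ W) (hX : #X < κ) (hg : ∀ x, κ < (g x).cof) (c : Cardinal.{u})
    (h : WC W (KL c g)) : WC W (KF c g) := by
  intro p hp
  by_cases h1 : c ≤ κ
  · refine Eventually.of_forall fun x => Eventually.of_forall fun ξ => ?_
    have := (ev_KF.1 (hp ξ)).eq_empty (fun x => (max_le h1 H.unc.le).trans_lt (hg x))
    by_contra hc
    exact (eq_empty_iff_forall_notMem.1 this x) hc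
  push Not at h1
  rcases isRegular_or_isSingular (H.unc.trans h1).le with hr | hs
  swap
  · exact (h p fun ξ => (hp ξ).filter_mono (KL_le_KF_of_singular H.reg hX hg hs)).filter_mono
      KF_le_KL
  have h2 : KK c (fun _ : κ.ord.ToType => c.ord) Set.univ :=
    (KK.const hr (by rw [H.mkK]; exact h1) (fun _ => hr.ord_pos)).mono le_rfl
      fun _ _ => hr.cof_ord
  obtain ⟨R, hR, hR'⟩ := r_lemma (T := κ.ord.ToType) (fun x => by rw [H.mkK]; exact hg x)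
    (bdd_KF H.reg hX hg _ le_rfl) (F := fun ξ => KL c g ⊓ 𝓟 {x | ¬ p ξ x}) (fun _ => hr.ord_pos)
    (fun ξ _ => scale_KL H.reg hX hg hr (H.unc.trans h1) (ev_KF.1 (hp ξ))) h2
  have h3 := h (fun ξ x => ¬ p ξ x → x ∈ R) (fun ξ => eventually_inf_principal.1 (hR' ξ trivial))
  refine ((h3.filter_mono KF_le_KL).and hR.ev).mono fun x hx => hx.1.mono fun ξ hξ => ?_
  by_contra hc
  exact hx.2 (hξ hc)

theorem QM.wc_KF (H : QM κ W) (hX : #X < κ) (hg : ∀ x, κ < (g x).cof) (c : Cardinal.{u}) :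
    WC W (KF c g) := by
  suffices h : WC W (KL c g) ∧ WC W (KF c g) from h.2
  induction c using WellFoundedLT.induction with
  | ind c ih => exact ⟨H.wc_KL hX hg c ih, H.wc_KF_of hX hg c (H.wc_KL hX hg c ih)⟩

end Pool.Agent.Lib.MP_414261_lc
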